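import Pool.Agent.Lib.MP_2d002d_gt.Interfaces

/-!
# MP_2d002d_gt (helper74): basic facts about the potentials
-/

set_option autoImplicit false

open MeasureTheory Set Filter Topology
open scoped ContDiff

namespace Pool.Agent.Lib.MP_2d002d_gt.H74

/-- Convex functions lie above their tangents. -/
theorem tangent_line {f : ℝ → ℝ} {S : Set ℝ} (hf : ConvexOn ℝ S f) {x y : ℝ} (hx : x ∈ S)
    (hy : y ∈ S) (hd : DifferentiableAt ℝ f x) : f x + deriv f x * (y - x) ≤ f y := by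
  rcases lt_trichotomy x y with h | h | h
  · have h1 := hf.deriv_le_slope hx hy h hd
    rw [slope_def_field, le_div_iff₀ (by linarith)] at h1
    linarith
  · rw [h]
    simp
  · have h1 := hf.slope_le_deriv hy hx h hd
    rw [slope_def_field, div_le_iff₀ (by linarith)] at h1
    linarith

/-- Convex functions lie above their tangent planes. -/
theorem tangent_plane {E : Type*} [NormedAddCommGroup E] [NormedSpace ℝ E] {f : E → ℝ}
    (hf : ConvexOn ℝ univ f) {z : E} (hd : DifferentiableAt ℝ f z) (w : E) :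
    f z + fderiv ℝ f z (w - z) ≤ f w := by
  have hl : HasDerivAt (fun s : ℝ => z + s • (w - z)) (w - z) 0 := by
    have h1 : HasDerivAt (fun s : ℝ => s • (w - z)) ((1 : ℝ) • (w - z)) 0 :=
      (hasDerivAt_id (0 : ℝ)).smul_const (w - z)
    rw [one_smul] at h1
    exact h1.const_add z
  have hg : HasDerivAt (fun s : ℝ => f (z + s • (w - z))) (fderiv ℝ f z (w - z)) 0 := by
    have h2 : HasFDerivAt f (fderiv ℝ f z) (z + (0 : ℝ) • (w - z)) := by
      rw [zero_smul, add_zero]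
      exact hd.hasFDerivAt
    exact h2.comp_hasDerivAt 0 hl
  have hc : ConvexOn ℝ univ (fun s : ℝ => f (z + s • (w - z))) := by
    refine ⟨convex_univ, fun a _ b _ p q hp hq hpq => ?_⟩
    have e : z + (p • a + q • b) • (w - z) = p • (z + a • (w - z)) + q • (z + b • (w - z)) := by
      rw [smul_add, smul_add, smul_smul, smul_smul, add_smul]
      have : z = p • z + q • z := by rw [← add_smul, hpq, one_smul]
      nth_rewrite 1 [this]
      simp only [smul_eq_mul]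
      abel
    change f (z + (p • a + q • b) • (w - z)) ≤ _
    rw [e]
    exact hf.2 (mem_univ _) (mem_univ _) hp hq hpq
  have h := tangent_line hc (mem_univ 0) (mem_univ 1) hg.differentiableAt
  rw [hg.deriv] at h
  simpa using h

section AdmFacts

variable {A : ℝ → ℝ}

theorem Adm.diff (hA : Adm A) : Differentiable ℝ A := hA.smooth.differentiable (by simp)

theorem Adm.smooth' (hA : Adm A) : ContDiff ℝ ∞ (deriv A) := by
  have h := hA.smooth
  rw [show (∞ : WithTop ℕ∞) = ∞ + 1 from rfl] at h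
  exact ((contDiff_succ_iff_deriv).mp h).2.2

theorem Adm.smooth'' (hA : Adm A) : ContDiff ℝ ∞ (deriv (deriv A)) := by
  have h := Adm.smooth' hA
  rw [show (∞ : WithTop ℕ∞) = ∞ + 1 from rfl] at h
  exact ((contDiff_succ_iff_deriv).mp h).2.2

theorem Adm.convexOn (hA : Adm A) : ConvexOn ℝ (Ici 0) A := by
  refine convexOn_of_deriv2_nonneg (convex_Ici 0) hA.smooth.continuous.continuousOn
    (Adm.diff hA).differentiableOn ?_ ?_
  · exact ((Adm.smooth' hA).differentiable (by simp)).differentiableOn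
  · intro x hx
    rw [interior_Ici] at hx
    exact hA.lo2 x (le_of_lt hx)

theorem Adm.tangent (hA : Adm A) {s t : ℝ} (hs : 0 ≤ s) (ht : 0 ≤ t) :
    A s + deriv A s * (t - s) ≤ A t :=
  tangent_line (Adm.convexOn hA) hs ht (Adm.diff hA s)

theorem Adm.ge (hA : Adm A) {δ : ℝ} (h : ∀ s, 0 ≤ s → δ ≤ deriv A s) {t : ℝ} (ht : 0 ≤ t) :
    A 0 + δ * t ≤ A t := by
  have h1 := Adm.tangent hA le_rfl ht
  have h2 := h 0 le_rfl
  nlinarith

end AdmFacts

variable {n : ℕ} {A : Fin n → ℝ → ℝ} {σ : Fin n → ℝ}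

theorem bf_pos (hA : ∀ i, Adm (A i)) (hσ : ∀ i, 0 ≤ σ i) (i : Fin n) (x : ℝ) :
    0 < bf A σ i x := by
  obtain ⟨δ, hδ, h⟩ := (hA i).lo
  have h1 := h (x ^ 2) (sq_nonneg x)
  have h2 := hσ i
  unfold bf
  linarith

theorem bf_lower (hA : ∀ i, Adm (A i)) (hσ : ∀ i, 0 ≤ σ i) :
    ∃ δ : ℝ, 0 < δ ∧ ∀ i x, δ ≤ bf A σ i x := by
  choose δ hδ h using fun i => (hA i).lo
  by_cases hn : Nonempty (Fin n)
  · obtain ⟨i0, -, hi0⟩ := Finset.exists_min_image (Finset.univ : Finset (Fin n)) δ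
      Finset.univ_nonempty
    refine ⟨δ i0, hδ i0, fun i x => ?_⟩
    have h1 := hi0 i (Finset.mem_univ i)
    have h2 := h i (x ^ 2) (sq_nonneg x)
    have h3 := hσ i
    have h4 := hδ i
    unfold bf
    linarith
  · rw [not_nonempty_iff] at hn
    exact ⟨1, one_pos, fun i => hn.elim i⟩

theorem Uf_tangent (hA : ∀ i, Adm (A i)) (i : Fin n) (y z : ℝ) :
    Uf A σ i y + bf A σ i y * (z ^ 2 - y ^ 2) / 2 ≤ Uf A σ i z := by
  have h := Adm.tangent (hA i) (sq_nonneg y) (sq_nonneg z)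
  unfold Uf bf
  linarith

theorem contDiff_bf (hA : ∀ i, Adm (A i)) (i : Fin n) : ContDiff ℝ ∞ (bf A σ i) := by
  unfold bf
  exact (contDiff_const.mul ((Adm.smooth' (hA i)).comp (contDiff_id.pow 2))).add contDiff_const

theorem contDiff_Uf (hA : ∀ i, Adm (A i)) (i : Fin n) : ContDiff ℝ ∞ (Uf A σ i) := by
  unfold Uf
  exact ((hA i).smooth.comp (contDiff_id.pow 2)).add
    ((contDiff_const.mul (contDiff_id.pow 2)).div_const 2)

theorem hasDerivAt_Uf (hA : ∀ i, Adm (A i)) (i : Fin n) (x : ℝ) :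
    HasDerivAt (Uf A σ i) (x * bf A σ i x) x := by
  unfold Uf bf
  have h1 : HasDerivAt (fun x : ℝ => x ^ 2) (2 * x) x := by
    simpa using hasDerivAt_pow 2 x
  have h2 : HasDerivAt (fun x => A i (x ^ 2)) (deriv (A i) (x ^ 2) * (2 * x)) x :=
    (Adm.diff (hA i) (x ^ 2)).hasDerivAt.comp x h1
  have h3 : HasDerivAt (fun x : ℝ => σ i * x ^ 2 / 2) (σ i * (2 * x) / 2) x :=
    (h1.const_mul (σ i)).div_const 2
  refine (h2.add h3).congr_deriv ?_
  ring

theorem contDiff_Psi (hA : ∀ i, Adm (A i)) {ψ : (Fin n → ℝ) → ℝ} {k : WithTop ℕ∞}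
    (hk : k ≤ ∞) (hψ : ContDiff ℝ k ψ) : ContDiff ℝ k (Psi A σ ψ) := by
  unfold Psi
  refine (ContDiff.sum fun i _ => ?_).add hψ
  exact ((contDiff_Uf (σ := σ) hA i).of_le hk).comp (contDiff_apply ℝ ℝ i)

theorem pd_Psi (hA : ∀ i, Adm (A i)) {ψ : (Fin n → ℝ) → ℝ} (hψ : Differentiable ℝ ψ)
    (i : Fin n) (x : Fin n → ℝ) :
    pd i (Psi A σ ψ) x = x i * bf A σ i (x i) + pd i ψ x := by
  have h1 : ∀ l, HasFDerivAt (fun y : Fin n → ℝ => Uf A σ l (y l))
      ((x l * bf A σ l (x l)) • (ContinuousLinearMap.proj l : (Fin n → ℝ) →L[ℝ] ℝ)) x := by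
    intro l
    exact (hasDerivAt_Uf (σ := σ) hA l (x l)).comp_hasFDerivAt x
      (ContinuousLinearMap.proj (R := ℝ) (φ := fun _ : Fin n => ℝ) l).hasFDerivAt
  have h2 : HasFDerivAt (Psi A σ ψ) ((∑ l, (x l * bf A σ l (x l)) •
      (ContinuousLinearMap.proj l : (Fin n → ℝ) →L[ℝ] ℝ)) + fderiv ℝ ψ x) x := by
    unfold Psi
    exact (HasFDerivAt.fun_sum fun l _ => h1 l).add (hψ x).hasFDerivAt
  unfold pd
  rw [h2.fderiv]
  simp only [add_apply, sum_apply,
    smul_apply, ContinuousLinearMap.proj_apply, smul_eq_mul]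
  rw [Finset.sum_eq_single i (fun l _ hl => by rw [Pi.single_eq_of_ne hl, mul_zero])
    (fun h => absurd (Finset.mem_univ i) h), Pi.single_eq_same, mul_one]

/-- The potentials grow quadratically. -/
theorem Psi_lower (hA : ∀ i, Adm (A i)) (hσ : ∀ i, 0 ≤ σ i) {ψ : (Fin n → ℝ) → ℝ} {c0 : ℝ}
    (hψ : ∀ x, c0 ≤ ψ x) : ∃ c : ℝ, 0 < c ∧ ∃ C : ℝ, ∀ x, c * ∑ i, x i ^ 2 - C ≤ Psi A σ ψ x := by
  choose δ hδ h using fun i => (hA i).lo
  obtain ⟨c, hc, hc'⟩ : ∃ c : ℝ, 0 < c ∧ ∀ i, c ≤ δ i := by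
    by_cases hn : Nonempty (Fin n)
    · obtain ⟨i0, -, hi0⟩ := Finset.exists_min_image (Finset.univ : Finset (Fin n)) δ
        Finset.univ_nonempty
      exact ⟨δ i0, hδ i0, fun i => hi0 i (Finset.mem_univ i)⟩
    · rw [not_nonempty_iff] at hn
      exact ⟨1, one_pos, fun i => hn.elim i⟩
  refine ⟨c, hc, -(∑ i, A i 0) - c0, fun x => ?_⟩
  have h1 : ∀ i, A i 0 + c * x i ^ 2 ≤ Uf A σ i (x i) := by
    intro i
    have h2 := Adm.ge (hA i) (fun s hs => h i s hs) (sq_nonneg (x i))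
    have h3 := mul_le_mul_of_nonneg_right (hc' i) (sq_nonneg (x i))
    have h4 := mul_nonneg (hσ i) (sq_nonneg (x i))
    unfold Uf
    linarith
  have h5 := Finset.sum_le_sum (s := Finset.univ) (fun i _ => h1 i)
  rw [Finset.sum_add_distrib, ← Finset.mul_sum] at h5
  unfold Psi
  have h6 := hψ x
  linarith

/-- Even convex functions are bounded below. -/
theorem even_convex_ge {E : Type*} [NormedAddCommGroup E] [NormedSpace ℝ E] {f : E → ℝ}
    (hf : ConvexOn ℝ univ f) (he : ∀ z, f (-z) = f z) (z : E) : f 0 ≤ f z := by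
  have h := hf.2 (mem_univ z) (mem_univ (-z)) (show (0 : ℝ) ≤ 1 / 2 by norm_num)
    (show (0 : ℝ) ≤ 1 / 2 by norm_num) (by norm_num)
  rw [smul_neg, add_neg_cancel, he] at h
  simp only [smul_eq_mul] at h
  linarith

end Pool.Agent.Lib.MP_2d002d_gt.H74
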