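import Pool.Agent.Lib.MP_2d002d_gt.H74.Slice

/-!
# MP_2d002d_gt, module M6b (helper74): functions of polynomial growth, cut-offs
-/

set_option autoImplicit false

open MeasureTheory Set Filter Topology
open scoped ContDiff

namespace Pool.Agent.Lib.MP_2d002d_gt.H74

theorem integrable_exp_neg_sum_sq {n : ℕ} {c : ℝ} (hc : 0 < c) :
    Integrable (fun x : Fin n → ℝ => Real.exp (-(c * ∑ i, x i ^ 2))) := by
  have h : Integrable (fun x : Fin n → ℝ => ∏ i, Real.exp (-c * x i ^ 2)) :=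
    Integrable.fintype_prod (fun _ => integrable_exp_neg_mul_sq hc)
  refine h.congr (Eventually.of_forall fun x => ?_)
  simp only
  rw [← Real.exp_sum]
  congr 1
  rw [Finset.mul_sum, ← Finset.sum_neg_distrib]
  refine Finset.sum_congr rfl fun i _ => ?_
  ring

/-- Growth of order at most `k` in the coordinate `j`. -/
def PB {n : ℕ} (j : Fin n) (k : ℕ) (f : (Fin n → ℝ) → ℝ) : Prop :=
  ∃ K, 0 ≤ K ∧ ∀ x, |f x| ≤ K * (1 + |x j|) ^ k

section PB

variable {n : ℕ} {j : Fin n} {k l : ℕ} {f g : (Fin n → ℝ) → ℝ}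

theorem PB.mul (hf : PB j k f) (hg : PB j l g) : PB j (k + l) (fun x => f x * g x) := by
  obtain ⟨K, hK, h⟩ := hf
  obtain ⟨L, hL, h'⟩ := hg
  refine ⟨K * L, mul_nonneg hK hL, fun x => ?_⟩
  rw [abs_mul, pow_add]
  have h1 : 0 ≤ (1 + |x j|) ^ k := by positivity
  have h2 : 0 ≤ (1 + |x j|) ^ l := by positivity
  calc |f x| * |g x| ≤ (K * (1 + |x j|) ^ k) * (L * (1 + |x j|) ^ l) :=
        mul_le_mul (h x) (h' x) (abs_nonneg _) (mul_nonneg hK h1)
    _ = K * L * ((1 + |x j|) ^ k * (1 + |x j|) ^ l) := by ring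

theorem PB.mono (hf : PB j k f) (hkl : k ≤ l) : PB j l f := by
  obtain ⟨K, hK, h⟩ := hf
  refine ⟨K, hK, fun x => (h x).trans (mul_le_mul_of_nonneg_left ?_ hK)⟩
  exact pow_le_pow_right₀ (by linarith [abs_nonneg (x j)]) hkl

theorem PB.add (hf : PB j k f) (hg : PB j k g) : PB j k (fun x => f x + g x) := by
  obtain ⟨K, hK, h⟩ := hf
  obtain ⟨L, hL, h'⟩ := hg
  refine ⟨K + L, add_nonneg hK hL, fun x => ?_⟩
  calc |f x + g x| ≤ |f x| + |g x| := abs_add_le _ _
    _ ≤ K * (1 + |x j|) ^ k + L * (1 + |x j|) ^ k := add_le_add (h x) (h' x)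
    _ = (K + L) * (1 + |x j|) ^ k := by ring

theorem PB.neg (hf : PB j k f) : PB j k (fun x => -f x) := by
  obtain ⟨K, hK, h⟩ := hf
  refine ⟨K, hK, fun x => ?_⟩
  rw [abs_neg]
  exact h x

theorem PB.sub (hf : PB j k f) (hg : PB j k g) : PB j k (fun x => f x - g x) := by
  simpa [sub_eq_add_neg] using hf.add hg.neg

theorem PB.sum {ι : Type*} (s : Finset ι) {F : ι → (Fin n → ℝ) → ℝ}
    (h : ∀ i ∈ s, PB j k (F i)) : PB j k (fun x => ∑ i ∈ s, F i x) := by
  classical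
  induction s using Finset.induction_on with
  | empty => exact ⟨0, le_rfl, fun x => by simp⟩
  | insert a s ha ih =>
    have h1 := (h a (Finset.mem_insert_self a s)).add
      (ih fun i hi => h i (Finset.mem_insert_of_mem hi))
    simpa [Finset.sum_insert ha] using h1

theorem PB.bdd {C : ℝ} (h : ∀ x, |f x| ≤ C) : PB j 0 f := by
  refine ⟨|C|, abs_nonneg C, fun x => ?_⟩
  rw [pow_zero, mul_one]
  exact (h x).trans (le_abs_self C)

theorem PB.const (c : ℝ) : PB j 0 (fun _ => c) := PB.bdd (C := |c|) fun _ => le_rfl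

theorem PB.coord : PB j 1 (fun x => x j) := by
  refine ⟨1, zero_le_one, fun x => ?_⟩
  rw [pow_one, one_mul]
  linarith [abs_nonneg (x j)]

theorem PB.sq (hf : PB j k f) : PB j (k + k) (fun x => f x ^ 2) := by
  simpa [pow_two] using hf.mul hf

end PB

/-- Integrability of functions of polynomial growth. -/
theorem integrable_of_PB {n : ℕ} {j : Fin n} {P f : (Fin n → ℝ) → ℝ} (hP : Continuous P)
    (hlow : ∃ c : ℝ, 0 < c ∧ ∃ C : ℝ, ∀ x, c * ∑ i, x i ^ 2 - C ≤ P x) (hf : Continuous f)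
    (hb : PB j 4 f) : Integrable (fun x => f x * Real.exp (-P x)) := by
  obtain ⟨c, hc, C, hC⟩ := hlow
  obtain ⟨K, hK, hb⟩ := hb
  set M : ℝ := max 1 (4 / c) with hM
  have hM1 : 1 ≤ M := le_max_left _ _
  have hM2 : 1 ≤ M * (c / 4) := by
    have h1 : 4 / c ≤ M := le_max_right _ _
    have h2 : 4 / c * (c / 4) = 1 := by field_simp
    nlinarith
  refine Integrable.mono' ((integrable_exp_neg_sum_sq (n := n) (half_pos hc)).const_mul
    (K * (4 * M ^ 2) * Real.exp C)) (hf.mul hP.neg.rexp).aestronglyMeasurable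
    (Eventually.of_forall fun x => ?_)
  rw [Real.norm_eq_abs, abs_mul, abs_of_pos (Real.exp_pos _)]
  have h1 : (1 + |x j|) ^ 4 ≤ 4 * M ^ 2 * Real.exp (c / 2 * x j ^ 2) := by
    have h2 : (1 + |x j|) ^ 2 ≤ 2 * (1 + x j ^ 2) := by
      nlinarith [sq_nonneg (1 - |x j|), sq_abs (x j)]
    have h3 : 1 + x j ^ 2 ≤ M * Real.exp (c / 4 * x j ^ 2) := by
      have h4 : c / 4 * x j ^ 2 + 1 ≤ Real.exp (c / 4 * x j ^ 2) := Real.add_one_le_exp _
      have h5 : M * (c / 4 * x j ^ 2 + 1) ≤ M * Real.exp (c / 4 * x j ^ 2) :=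
        mul_le_mul_of_nonneg_left h4 (by linarith)
      nlinarith [sq_nonneg (x j)]
    have h6 : 0 ≤ 1 + x j ^ 2 := by positivity
    calc (1 + |x j|) ^ 4 = ((1 + |x j|) ^ 2) ^ 2 := by ring
      _ ≤ (2 * (1 + x j ^ 2)) ^ 2 := by
          apply pow_le_pow_left₀ (by positivity) h2
      _ = 4 * (1 + x j ^ 2) ^ 2 := by ring
      _ ≤ 4 * (M * Real.exp (c / 4 * x j ^ 2)) ^ 2 := by
          have := pow_le_pow_left₀ h6 h3 2
          linarith
      _ = 4 * M ^ 2 * Real.exp (c / 2 * x j ^ 2) := by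
          rw [mul_pow, ← Real.exp_nat_mul]
          rw [show ((2 : ℕ) : ℝ) * (c / 4 * x j ^ 2) = c / 2 * x j ^ 2 by push_cast; ring]
          ring
  have h7 : x j ^ 2 ≤ ∑ i, x i ^ 2 :=
    Finset.single_le_sum (f := fun i => x i ^ 2) (fun i _ => sq_nonneg (x i)) (Finset.mem_univ j)
  have h8 : Real.exp (c / 2 * x j ^ 2) * Real.exp (-P x) ≤
      Real.exp C * Real.exp (-(c / 2 * ∑ i, x i ^ 2)) := by
    rw [← Real.exp_add, ← Real.exp_add]
    apply Real.exp_le_exp.mpr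
    have := hC x
    nlinarith
  calc |f x| * Real.exp (-P x) ≤ K * (1 + |x j|) ^ 4 * Real.exp (-P x) :=
        mul_le_mul_of_nonneg_right (hb x) (Real.exp_pos _).le
    _ ≤ K * (4 * M ^ 2 * Real.exp (c / 2 * x j ^ 2)) * Real.exp (-P x) :=
        mul_le_mul_of_nonneg_right (mul_le_mul_of_nonneg_left h1 hK) (Real.exp_pos _).le
    _ = K * (4 * M ^ 2) * (Real.exp (c / 2 * x j ^ 2) * Real.exp (-P x)) := by ring
    _ ≤ K * (4 * M ^ 2) * (Real.exp C * Real.exp (-(c / 2 * ∑ i, x i ^ 2))) :=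
        mul_le_mul_of_nonneg_left h8 (by positivity)
    _ = K * (4 * M ^ 2) * Real.exp C * Real.exp (-(c / 2 * ∑ i, x i ^ 2)) := by ring

/-- Integrability of `exp (-P)`. -/
theorem integrable_exp_neg {n : ℕ} {P : (Fin n → ℝ) → ℝ} (hP : Continuous P)
    (hlow : ∃ c : ℝ, 0 < c ∧ ∃ C : ℝ, ∀ x, c * ∑ i, x i ^ 2 - C ≤ P x) :
    Integrable (fun x => Real.exp (-P x)) := by
  obtain ⟨c, hc, C, hC⟩ := hlow
  refine Integrable.mono' ((integrable_exp_neg_sum_sq (n := n) hc).const_mul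
    (Real.exp C)) hP.neg.rexp.aestronglyMeasurable (Eventually.of_forall fun x => ?_)
  rw [Real.norm_eq_abs, abs_of_pos (Real.exp_pos _), ← Real.exp_add]
  apply Real.exp_le_exp.mpr
  have := hC x
  linarith

/-- The slice inequality for bounded functions with bounded derivatives. -/
theorem slice_ext (hS : Slice) {m : ℕ} {A : Fin m → ℝ → ℝ} {σ : Fin m → ℝ}
    {ψ : ℝ × (Fin m → ℝ) → ℝ} {t : ℝ} {v : (Fin m → ℝ) → ℝ}
    (hA : ∀ i, Adm (A i)) (hσ : ∀ i, 0 ≤ σ i) (hψ : ContDiff ℝ ∞ ψ) (hev : ∀ z, ψ (-z) = ψ z)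
    (hconv : ConvexOn ℝ univ ψ) (hv : ContDiff ℝ 1 v) {C : ℝ} (hvC : ∀ y, |v y| ≤ C)
    (hvd : ∀ l y, |pd l v y| ≤ C) (hψC : ∀ y, |fderiv ℝ ψ (t, y) (1, 0)| ≤ C) :
    0 ≤ ∫ y, (t * fderiv ℝ ψ (t, y) (1, 0) * v y ^ 2 + ∑ l, pd l v y ^ 2 / bf A σ l (y l)) *
      Real.exp (-(Psi A σ (fun y => ψ (t, y)) y)) := by
  have hC0 : 0 ≤ C := (abs_nonneg _).trans (hvC 0)
  have hemb : ContDiff ℝ ∞ (fun y : Fin m → ℝ => ((t, y) : ℝ × (Fin m → ℝ))) :=
    contDiff_const.prodMk contDiff_id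
  have hψt : ContDiff ℝ ∞ (fun y : Fin m → ℝ => ψ (t, y)) := hψ.comp hemb
  set P : (Fin m → ℝ) → ℝ := Psi A σ (fun y => ψ (t, y)) with hP
  have hPs : ContDiff ℝ ∞ P := contDiff_Psi hA le_rfl hψt
  have hPc : Continuous P := hPs.continuous
  have hlow := Psi_lower (σ := σ) hA hσ (ψ := fun y => ψ (t, y)) (c0 := ψ 0)
    (fun y => even_convex_ge hconv hev (t, y))
  obtain ⟨δ, hδ, hbl⟩ := bf_lower (σ := σ) hA hσ
  -- the cut-off
  let χ : ContDiffBump (0 : Fin m → ℝ) := ⟨1, 2, one_pos, one_lt_two⟩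
  have hχs : ContDiff ℝ 1 (χ : (Fin m → ℝ) → ℝ) := χ.contDiff
  obtain ⟨C1, hC1⟩ : ∃ C1, ∀ y, ‖fderiv ℝ (χ : (Fin m → ℝ) → ℝ) y‖ ≤ C1 :=
    (χ.hasCompactSupport.fderiv (𝕜 := ℝ)).exists_bound_of_continuous
      (hχs.continuous_fderiv (by simp))
  have hC1' : 0 ≤ C1 := (norm_nonneg _).trans (hC1 0)
  let χk : ℕ → (Fin m → ℝ) → ℝ := fun k y => χ (((k : ℝ) + 1)⁻¹ • y)
  have hk0 : ∀ k : ℕ, (0 : ℝ) < ((k : ℝ) + 1)⁻¹ := fun k => by positivity
  have hks : ∀ k, ContDiff ℝ 1 (χk k) := fun k => hχs.comp (contDiff_const_smul _)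
  have hkc : ∀ k, HasCompactSupport (χk k) := fun k =>
    χ.hasCompactSupport.comp_homeomorph (Homeomorph.smulOfNeZero _ (hk0 k).ne')
  have hk1 : ∀ k y, |χk k y| ≤ 1 := fun k y => by
    rw [abs_of_nonneg χ.nonneg]
    exact χ.le_one
  have hkd : ∀ k l y, |pd l (χk k) y| ≤ C1 := by
    intro k l y
    have h1 : HasFDerivAt (χk k) ((fderiv ℝ (χ : (Fin m → ℝ) → ℝ) (((k : ℝ) + 1)⁻¹ • y)).comp
        (((k : ℝ) + 1)⁻¹ • ContinuousLinearMap.id ℝ (Fin m → ℝ))) y :=
      ((hχs.differentiable (by simp)) _).hasFDerivAt.comp y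
        ((hasFDerivAt_id y).const_smul (((k : ℝ) + 1)⁻¹))
    unfold pd
    rw [h1.fderiv]
    simp only [ContinuousLinearMap.comp_apply, smul_apply, ContinuousLinearMap.id_apply, map_smul,
      smul_eq_mul]
    rw [abs_mul, abs_of_pos (hk0 k)]
    have h2 : ((k : ℝ) + 1)⁻¹ ≤ 1 := inv_le_one_of_one_le₀ (by
      have : (0 : ℝ) ≤ k := Nat.cast_nonneg k
      linarith)
    have h3 : |fderiv ℝ (χ : (Fin m → ℝ) → ℝ) (((k : ℝ) + 1)⁻¹ • y) (Pi.single l 1)| ≤ C1 := by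
      have h4 := (fderiv ℝ (χ : (Fin m → ℝ) → ℝ) (((k : ℝ) + 1)⁻¹ • y)).le_opNorm
        (Pi.single l (1 : ℝ))
      have h5 : ‖(Pi.single l (1 : ℝ) : Fin m → ℝ)‖ = 1 := by
        rw [Pi.norm_single, norm_one]
      rw [h5, mul_one] at h4
      exact h4.trans (hC1 _)
    calc _ ≤ 1 * C1 := mul_le_mul h2 h3 (abs_nonneg _) zero_le_one
      _ = C1 := one_mul _
  let vk : ℕ → (Fin m → ℝ) → ℝ := fun k y => χk k y * v y
  have hvks : ∀ k, ContDiff ℝ 1 (vk k) := fun k => (hks k).mul hv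
  have hvkc : ∀ k, HasCompactSupport (vk k) := fun k => (hkc k).mul_right
  have hpdvk : ∀ k l y, pd l (vk k) y = χk k y * pd l v y + v y * pd l (χk k) y := by
    intro k l y
    have h1 : HasFDerivAt (vk k) _ y := ((hks k).differentiable (by simp) y).hasFDerivAt.mul
      (hv.differentiable (by simp) y).hasFDerivAt
    unfold pd
    rw [h1.fderiv]
    simp only [add_apply, smul_apply, smul_eq_mul]
  have hcψ : Continuous (fun y : Fin m → ℝ => fderiv ℝ ψ (t, y) (1, 0)) :=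
    ((hψ.continuous_fderiv (by simp)).comp (by fun_prop)).clm_apply continuous_const
  have hcb : ∀ l, Continuous (fun y : Fin m → ℝ => bf A σ l (y l)) := fun l =>
    (contDiff_bf (σ := σ) hA l).continuous.comp (continuous_apply l)
  -- dominated convergence
  refine ge_of_tendsto' (x := (atTop : Filter ℕ)) (f := fun k => ∫ y, (t * fderiv ℝ ψ (t, y) (1, 0) *
    vk k y ^ 2 + ∑ l, pd l (vk k) y ^ 2 / bf A σ l (y l)) * Real.exp (-P y)) ?_
    (fun k => hS m A σ ψ t (vk k) hA hσ hψ hev hconv (hvks k) (hvkc k))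
  refine tendsto_integral_of_dominated_convergence
    (fun y => (|t| * C * C ^ 2 + ∑ _l : Fin m, (C + C * C1) ^ 2 / δ) * Real.exp (-P y)) ?_ ?_ ?_ ?_
  · intro k
    refine Continuous.aestronglyMeasurable ?_
    exact (((continuous_const.mul hcψ).mul ((hvks k).continuous.pow 2)).add
      (continuous_finsetSum _ fun l _ => ((continuous_pd (hvks k) l).pow 2).div₀ (hcb l)
        (fun y => (bf_pos hA hσ l (y l)).ne'))).mul hPc.neg.rexp
  · exact (integrable_exp_neg hPc hlow).const_mul _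
  · intro k
    refine Eventually.of_forall fun y => ?_
    rw [Real.norm_eq_abs, abs_mul, abs_of_pos (Real.exp_pos (-P y))]
    refine mul_le_mul_of_nonneg_right ?_ (Real.exp_pos _).le
    have h1 : |vk k y| ≤ C := by
      rw [abs_mul]
      calc |χk k y| * |v y| ≤ 1 * C := mul_le_mul (hk1 k y) (hvC y) (abs_nonneg _) zero_le_one
        _ = C := one_mul C
    have h2 : ∀ l, |pd l (vk k) y| ≤ C + C * C1 := by
      intro l
      rw [hpdvk]
      refine (abs_add_le _ _).trans (add_le_add ?_ ?_)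
      · rw [abs_mul]
        calc |χk k y| * |pd l v y| ≤ 1 * C :=
              mul_le_mul (hk1 k y) (hvd l y) (abs_nonneg _) zero_le_one
          _ = C := one_mul C
      · rw [abs_mul]
        exact mul_le_mul (hvC y) (hkd k l y) (abs_nonneg _) hC0
    refine (abs_add_le _ _).trans (add_le_add ?_ ?_)
    · rw [abs_mul, abs_mul, abs_pow]
      have h3 : |vk k y| ^ 2 ≤ C ^ 2 := pow_le_pow_left₀ (abs_nonneg _) h1 2
      exact mul_le_mul (mul_le_mul_of_nonneg_left (hψC y) (abs_nonneg t)) h3 (by positivity)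
        (by positivity)
    · refine (Finset.abs_sum_le_sum_abs _ _).trans (Finset.sum_le_sum fun l _ => ?_)
      have hb := hbl l (y l)
      rw [abs_div, abs_of_pos (hδ.trans_le hb), abs_pow]
      have h4 : |pd l (vk k) y| ^ 2 ≤ (C + C * C1) ^ 2 :=
        pow_le_pow_left₀ (abs_nonneg _) (h2 l) 2
      exact div_le_div₀ (by positivity) h4 hδ hb
  · refine Eventually.of_forall fun y => ?_
    apply tendsto_const_nhds.congr'
    obtain ⟨k0, hk0'⟩ := exists_nat_gt ‖y‖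
    filter_upwards [eventually_ge_atTop k0] with k hk
    have hlt : ‖y‖ < (k : ℝ) + 1 := by
      have : (k0 : ℝ) ≤ k := by exact_mod_cast hk
      linarith
    -- near `y` the cut-off is one
    have hnear : ∀ᶠ z in 𝓝 y, χk k z = 1 := by
      have ho : IsOpen {z : Fin m → ℝ | ‖z‖ < (k : ℝ) + 1} := isOpen_lt continuous_norm
        continuous_const
      filter_upwards [ho.mem_nhds hlt] with z hz
      have hz' : ‖z‖ < (k : ℝ) + 1 := hz
      apply χ.one_of_mem_closedBall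
      rw [mem_closedBall_zero_iff, norm_smul, norm_inv, Real.norm_eq_abs,
        abs_of_pos (by positivity : (0 : ℝ) < (k : ℝ) + 1)]
      rw [inv_mul_le_iff₀ (by positivity), mul_one]
      exact hz'.le
    have e1 : χk k y = 1 := hnear.self_of_nhds
    have e2 : ∀ l, pd l (χk k) y = 0 := by
      intro l
      unfold pd
      have h1 : (χk k) =ᶠ[𝓝 y] fun _ => (1 : ℝ) := hnear
      rw [h1.fderiv_eq]
      simp
    have e3 : vk k y = v y := by
      change χk k y * v y = v y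
      rw [e1, one_mul]
    have e4 : ∀ l, pd l (vk k) y = pd l v y := by
      intro l
      rw [hpdvk, e1, e2, one_mul, mul_zero, add_zero]
    simp only [e3, e4]

end Pool.Agent.Lib.MP_2d002d_gt.H74
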