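import Pool.Agent.Lib.MP_2d002d_gt.H74.Poly

/-!
# MP_2d002d_gt, module M6b (helper74): the inequality `J_A ≥ 0`
-/

set_option autoImplicit false

open MeasureTheory Set Filter Topology
open scoped ContDiff

namespace Pool.Agent.Lib.MP_2d002d_gt.H74

/-- Insertion of a coordinate. -/
noncomputable def insL {m : ℕ} (j : Fin (m + 1)) : ℝ × (Fin m → ℝ) →L[ℝ] (Fin (m + 1) → ℝ) where
  toFun z := j.insertNth (α := fun _ => ℝ) z.1 z.2
  map_add' a b := by
    funext k
    refine Fin.succAboveCases j ?_ (fun l => ?_) k <;> simp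
  map_smul' c a := by
    funext k
    refine Fin.succAboveCases j ?_ (fun l => ?_) k <;> simp
  cont := by fun_prop

theorem insL_same {m : ℕ} (j : Fin (m + 1)) (t : ℝ) (y : Fin m → ℝ) : insL j (t, y) j = t := by
  change j.insertNth (α := fun _ => ℝ) t y j = t
  simp

theorem insL_succAbove {m : ℕ} (j : Fin (m + 1)) (t : ℝ) (y : Fin m → ℝ) (l : Fin m) :
    insL j (t, y) (j.succAbove l) = y l := by
  change j.insertNth (α := fun _ => ℝ) t y (j.succAbove l) = y l
  simp

theorem insL_one {m : ℕ} (j : Fin (m + 1)) : insL j (1, 0) = Pi.single j 1 := by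
  funext k
  refine Fin.succAboveCases j ?_ (fun l => ?_) k
  · rw [insL_same, Pi.single_eq_same]
  · rw [insL_succAbove, Pi.single_eq_of_ne (Fin.succAbove_ne j l)]
    rfl

theorem insL_single {m : ℕ} (j : Fin (m + 1)) (l : Fin m) :
    insL j (0, Pi.single l 1) = Pi.single (j.succAbove l) 1 := by
  funext k
  refine Fin.succAboveCases j ?_ (fun i => ?_) k
  · rw [insL_same, Pi.single_eq_of_ne (Fin.succAbove_ne j l).symm]
  · rw [insL_succAbove]
    by_cases h : i = l
    · rw [h, Pi.single_eq_same, Pi.single_eq_same]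
    · rw [Pi.single_eq_of_ne h, Pi.single_eq_of_ne (fun h' => h (Fin.succAbove_right_injective h'))]

theorem insL_emb {m : ℕ} (j : Fin (m + 1)) (z : ℝ × (Fin m → ℝ)) :
    (MeasurableEquiv.piFinSuccAbove (fun _ : Fin (m + 1) => ℝ) j).symm z = insL j z := rfl

theorem pd_insL {m : ℕ} (j : Fin (m + 1)) {f : (Fin (m + 1) → ℝ) → ℝ}
    (hf : Differentiable ℝ f) (t : ℝ) (y : Fin m → ℝ) (l : Fin m) (c : ℝ) :
    pd l (fun y => f (insL j (t, y)) - c) y = pd (j.succAbove l) f (insL j (t, y)) := by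
  have h1 : HasFDerivAt (fun y : Fin m → ℝ => ((t, y) : ℝ × (Fin m → ℝ)))
      (ContinuousLinearMap.inr ℝ ℝ (Fin m → ℝ)) y := hasFDerivAt_prodMk_right t y
  have h2 : HasFDerivAt (fun y : Fin m → ℝ => insL j (t, y))
      ((insL j).comp (ContinuousLinearMap.inr ℝ ℝ (Fin m → ℝ))) y :=
    (insL j).hasFDerivAt.comp y h1
  have h3 : HasFDerivAt (fun y : Fin m → ℝ => f (insL j (t, y)) - c)
      ((fderiv ℝ f (insL j (t, y))).comp
        ((insL j).comp (ContinuousLinearMap.inr ℝ ℝ (Fin m → ℝ)))) y :=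
    ((hf _).hasFDerivAt.comp y h2).sub_const c
  unfold pd
  rw [h3.fderiv]
  simp only [ContinuousLinearMap.comp_apply, ContinuousLinearMap.inr_apply, insL_single]

theorem fderiv_insL {m : ℕ} (j : Fin (m + 1)) {f : (Fin (m + 1) → ℝ) → ℝ}
    (hf : Differentiable ℝ f) (z : ℝ × (Fin m → ℝ)) :
    fderiv ℝ (fun z => f (insL j z)) z (1, 0) = pd j f (insL j z) := by
  have h3 : HasFDerivAt (fun z => f (insL j z)) ((fderiv ℝ f (insL j z)).comp (insL j)) z :=
    (hf _).hasFDerivAt.comp z (insL j).hasFDerivAt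
  unfold pd
  rw [h3.fderiv]
  simp only [ContinuousLinearMap.comp_apply, insL_one]

theorem Psi_insL {m : ℕ} (A : Fin (m + 1) → ℝ → ℝ) (σ : Fin (m + 1) → ℝ)
    (ψ : (Fin (m + 1) → ℝ) → ℝ) (j : Fin (m + 1)) (t : ℝ) (y : Fin m → ℝ) :
    Psi A σ ψ (insL j (t, y)) = Uf A σ j t +
      Psi (fun l => A (j.succAbove l)) (fun l => σ (j.succAbove l))
        (fun y => ψ (insL j (t, y))) y := by
  unfold Psi
  rw [Fin.sum_univ_succAbove _ j, insL_same]
  simp only [insL_succAbove]
  unfold Uf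
  ring

theorem abs_pd_le {n : ℕ} {f : (Fin n → ℝ) → ℝ} {C : ℝ} (h : ∀ x, ‖fderiv ℝ f x‖ ≤ C) (l : Fin n)
    (x : Fin n → ℝ) : |pd l f x| ≤ C := by
  have h4 := (fderiv ℝ f x).le_opNorm (Pi.single l (1 : ℝ))
  have h5 : ‖(Pi.single l (1 : ℝ) : Fin n → ℝ)‖ = 1 := by
    rw [Pi.norm_single, norm_one]
  rw [h5, mul_one] at h4
  exact h4.trans (h _)

/-- The Fubini part. -/
theorem slices_nonneg (hS : Slice) {m : ℕ} (A : Fin (m + 1) → ℝ → ℝ) (σ : Fin (m + 1) → ℝ)
    (ψ X : (Fin (m + 1) → ℝ) → ℝ) (j : Fin (m + 1)) (α : ℝ)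
    (hA : ∀ i, Adm (A i)) (hσ : ∀ i, 0 ≤ σ i) (hψ : ContDiff ℝ ∞ ψ) (hev : ∀ x, ψ (-x) = ψ x)
    (hconv : ConvexOn ℝ univ ψ) (hψC : ∃ C : ℝ, ∀ x, ‖fderiv ℝ ψ x‖ ≤ C)
    (hX : ContDiff ℝ ∞ X) (hXc : HasCompactSupport X)
    (hint : Integrable (fun x => (2 * deriv (A j) (x j ^ 2) * (x j * pd j ψ x *
      (X x - α * x j) ^ 2 + ∑ l, pd (j.succAbove l) X x ^ 2 /
        bf A σ (j.succAbove l) (x (j.succAbove l)))) * Real.exp (-(Psi A σ ψ x)))) :
    0 ≤ ∫ x, (2 * deriv (A j) (x j ^ 2) * (x j * pd j ψ x * (X x - α * x j) ^ 2 +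
      ∑ l, pd (j.succAbove l) X x ^ 2 / bf A σ (j.succAbove l) (x (j.succAbove l)))) *
        Real.exp (-(Psi A σ ψ x)) := by
  set Z : (Fin (m + 1) → ℝ) → ℝ := fun x => (2 * deriv (A j) (x j ^ 2) * (x j * pd j ψ x *
    (X x - α * x j) ^ 2 + ∑ l, pd (j.succAbove l) X x ^ 2 /
      bf A σ (j.succAbove l) (x (j.succAbove l)))) * Real.exp (-(Psi A σ ψ x)) with hZ
  have hmp := (volume_preserving_piFinSuccAbove (fun _ : Fin (m + 1) => ℝ) j).symm
  have h1 : ∫ x, Z x = ∫ z : ℝ × (Fin m → ℝ), Z (insL j z) := by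
    rw [← hmp.integral_comp (MeasurableEquiv.measurableEmbedding _)]
    rfl
  have h2 : Integrable (fun z : ℝ × (Fin m → ℝ) => Z (insL j z)) := by
    have := (hmp.integrable_comp_emb (MeasurableEquiv.measurableEmbedding _)).mpr hint
    exact this
  rw [h1, Measure.volume_eq_prod, integral_prod _ (by rwa [← Measure.volume_eq_prod])]
  refine integral_nonneg fun t => ?_
  -- the slice at `t`
  obtain ⟨C, hC⟩ := hψC
  obtain ⟨C2, hC2⟩ := hXc.exists_bound_of_continuous hX.continuous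
  obtain ⟨C3, hC3⟩ := (hXc.fderiv (𝕜 := ℝ)).exists_bound_of_continuous
    (hX.continuous_fderiv (by simp))
  have hs := slice_ext hS (m := m) (A := fun l => A (j.succAbove l))
    (σ := fun l => σ (j.succAbove l)) (ψ := fun z => ψ (insL j z)) (t := t)
    (v := fun y => X (insL j (t, y)) - α * t) (fun i => hA _) (fun i => hσ _)
    (hψ.comp (insL j).contDiff) (fun z => by rw [map_neg]; exact hev _)
    (by
      have := hconv.comp_linearMap ((insL j : ℝ × (Fin m → ℝ) →L[ℝ] (Fin (m + 1) → ℝ)) :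
        ℝ × (Fin m → ℝ) →ₗ[ℝ] (Fin (m + 1) → ℝ))
      exact this)
    (((hX.of_le (by simp)).comp ((insL j).contDiff.comp
      (contDiff_const.prodMk contDiff_id))).sub contDiff_const)
    (C := max (max C (C2 + |α * t|)) C3)
    (fun y => by
      refine le_trans ?_ (le_max_left _ _)
      refine le_trans ?_ (le_max_right _ _)
      refine (abs_sub _ _).trans ?_
      have := hC2 (insL j (t, y))
      rw [Real.norm_eq_abs] at this
      linarith)
    (fun l y => by
      refine le_trans ?_ (le_max_right _ _)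
      rw [pd_insL j (hX.differentiable (by simp))]
      exact abs_pd_le hC3 _ _)
    (fun y => by
      refine le_trans ?_ (le_max_left _ _)
      refine le_trans ?_ (le_max_left _ _)
      rw [fderiv_insL j (hψ.differentiable (by simp))]
      exact abs_pd_le hC _ _)
  have h3 : ∫ y, Z (insL j (t, y)) = (2 * deriv (A j) (t ^ 2) * Real.exp (-(Uf A σ j t))) *
      ∫ y, (t * fderiv ℝ (fun z => ψ (insL j z)) (t, y) (1, 0) * (X (insL j (t, y)) - α * t) ^ 2 +
        ∑ l, pd l (fun y => X (insL j (t, y)) - α * t) y ^ 2 /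
          bf (fun l => A (j.succAbove l)) (fun l => σ (j.succAbove l)) l (y l)) *
      Real.exp (-(Psi (fun l => A (j.succAbove l)) (fun l => σ (j.succAbove l))
        (fun y => ψ (insL j (t, y))) y)) := by
    rw [← integral_const_mul]
    refine integral_congr_ae (Eventually.of_forall fun y => ?_)
    simp only [hZ]
    rw [Psi_insL, neg_add, Real.exp_add, fderiv_insL j (hψ.differentiable (by simp))]
    simp only [pd_insL j (hX.differentiable (by simp)), insL_same, insL_succAbove]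
    have e : ∀ l, bf A σ (j.succAbove l) (y l) =
      bf (fun l => A (j.succAbove l)) (fun l => σ (j.succAbove l)) l (y l) := fun l => rfl
    simp only [e]
    ring
  change 0 ≤ ∫ y, Z (insL j (t, y))
  rw [h3]
  obtain ⟨δ, hδ, hd⟩ := (hA j).lo
  have h4 : 0 ≤ deriv (A j) (t ^ 2) := hδ.le.trans (hd _ (sq_nonneg t))
  exact mul_nonneg (mul_nonneg (mul_nonneg zero_le_two h4) (Real.exp_pos _).le) hs

theorem ja (hS : Slice) : JA := by
  intro n A σ ψ X j α hA hσ hψ hev hconv hψC hX hXc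
  obtain ⟨m, rfl⟩ : ∃ m, n = m + 1 := Nat.exists_eq_succ_of_ne_zero (Fin.pos j).ne'
  obtain ⟨C, hC⟩ := hψC
  have hPs : ContDiff ℝ ∞ (Psi A σ ψ) := contDiff_Psi hA le_rfl hψ
  have hPc : Continuous (Psi A σ ψ) := hPs.continuous
  have hlow := Psi_lower (σ := σ) hA hσ (ψ := ψ) (c0 := ψ 0) (fun y => even_convex_ge hconv hev y)
  obtain ⟨δ, hδ, hbl⟩ := bf_lower (σ := σ) hA hσ
  have hXs : ContDiff ℝ 1 X := hX.of_le (by simp)
  have hcX : Continuous X := hX.continuous
  have hcpX : ∀ l, Continuous (pd l X) := fun l => continuous_pd hXs l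
  have hcpψ : ∀ l, Continuous (pd l ψ) := fun l => continuous_pd (hψ.of_le (by simp)) l
  have hcb : ∀ l, Continuous (fun y : Fin (m + 1) → ℝ => bf A σ l (y l)) := fun l =>
    (contDiff_bf (σ := σ) hA l).continuous.comp (continuous_apply l)
  have hbn : ∀ l (x : Fin (m + 1) → ℝ), bf A σ l (x l) ≠ 0 := fun l x =>
    (bf_pos hA hσ l (x l)).ne'
  have hA1 : Continuous (fun x : Fin (m + 1) → ℝ => deriv (A j) (x j ^ 2)) :=
    (Adm.smooth' (hA j)).continuous.comp ((continuous_apply j).pow 2)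
  have hA2 : Continuous (fun x : Fin (m + 1) → ℝ => deriv (deriv (A j)) (x j ^ 2)) :=
    (Adm.smooth'' (hA j)).continuous.comp ((continuous_apply j).pow 2)
  have hcj : Continuous (fun x : Fin (m + 1) → ℝ => x j) := continuous_apply j
  -- growth
  have g1 : PB j 0 (fun x => deriv (A j) (x j ^ 2)) := by
    obtain ⟨K, hK⟩ := (hA j).up
    obtain ⟨δ', hδ', hd'⟩ := (hA j).lo
    refine PB.bdd (C := K) fun x => ?_
    rw [abs_of_nonneg (hδ'.le.trans (hd' _ (sq_nonneg _)))]
    exact hK _ (sq_nonneg _)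
  have g2 : PB j 0 (fun x => deriv (deriv (A j)) (x j ^ 2)) := by
    obtain ⟨K, hK⟩ := (hA j).up2
    refine PB.bdd (C := K) fun x => ?_
    rw [abs_of_nonneg ((hA j).lo2 _ (sq_nonneg _))]
    exact hK _ (sq_nonneg _)
  have gb : PB j 0 (fun x => bf A σ j (x j)) := by
    have h := ((PB.const (j := j) 2).mul g1).add (PB.const (σ j))
    exact h
  have gX : PB j 0 X := by
    obtain ⟨K, hK⟩ := hXc.exists_bound_of_continuous hX.continuous
    exact PB.bdd (C := K) fun x => by simpa using hK x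
  have gpX : ∀ l, PB j 0 (pd l X) := by
    intro l
    obtain ⟨K, hK⟩ := (hXc.fderiv (𝕜 := ℝ)).exists_bound_of_continuous
      (hX.continuous_fderiv (by simp))
    exact PB.bdd (C := K) fun x => abs_pd_le hK l x
  have gpψ : PB j 0 (pd j ψ) := PB.bdd (C := C) fun x => abs_pd_le hC j x
  have gq : ∀ l, PB j 0 (fun x => pd l X x ^ 2 / bf A σ l (x l)) := by
    intro l
    have h1 : PB j 0 (fun x => (bf A σ l (x l))⁻¹) := PB.bdd (C := δ⁻¹) fun x => by
      rw [abs_inv, abs_of_pos (hδ.trans_le (hbl l (x l)))]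
      exact inv_anti₀ hδ (hbl l (x l))
    have h2 := ((gpX l).sq).mul h1
    simpa [div_eq_mul_inv] using h2
  have gc : PB j 1 (fun x => x j) := PB.coord
  have gv : PB j 1 (fun x => X x - α * x j) :=
    (gX.mono (by norm_num)).sub ((PB.const α).mul gc)
  have gv2 : PB j 2 (fun x => (X x - α * x j) ^ 2) := gv.sq
  have hcv : Continuous (fun x => X x - α * x j) := hcX.sub (continuous_const.mul hcj)
  have hint : ∀ f : (Fin (m + 1) → ℝ) → ℝ, Continuous f → PB j 4 f →
      Integrable (fun x => f x * Real.exp (-(Psi A σ ψ x))) := fun f hf hb =>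
    integrable_of_PB hPc hlow hf hb
  -- the function of the Fubini part
  have iZ : Integrable (fun x => (2 * deriv (A j) (x j ^ 2) * (x j * pd j ψ x *
      (X x - α * x j) ^ 2 + ∑ l, pd (j.succAbove l) X x ^ 2 /
        bf A σ (j.succAbove l) (x (j.succAbove l)))) * Real.exp (-(Psi A σ ψ x))) := by
    refine hint _ ?_ ?_
    · exact (continuous_const.mul hA1).mul (((hcj.mul (hcpψ j)).mul (hcv.pow 2)).add
        (continuous_finsetSum _ fun l _ => ((hcpX _).pow 2).div₀ (hcb _) (hbn _)))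
    · have h1 : PB j 3 (fun x => x j * pd j ψ x * (X x - α * x j) ^ 2) := (gc.mul gpψ).mul gv2
      have h2 : PB j 3 (fun x => ∑ l, pd (j.succAbove l) X x ^ 2 /
          bf A σ (j.succAbove l) (x (j.succAbove l))) :=
        PB.sum _ fun l _ => (gq (j.succAbove l)).mono (by norm_num)
      exact (((PB.const 2).mul g1).mul (h1.add h2)).mono (by norm_num)
  have hZ := slices_nonneg hS A σ ψ X j α hA hσ hψ hev hconv ⟨C, hC⟩ hX hXc iZ
  -- the square
  have cS : Continuous (fun x => 2 * deriv (A j) (x j ^ 2) *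
      ((pd j X x - x j * bf A σ j (x j) * (X x - α * x j)) ^ 2 / bf A σ j (x j))) :=
    (continuous_const.mul hA1).mul ((((hcpX j).sub ((hcj.mul (hcb j)).mul hcv)).pow 2).div₀
      (hcb j) (hbn j))
  have gS : PB j 4 (fun x => 2 * deriv (A j) (x j ^ 2) *
      ((pd j X x - x j * bf A σ j (x j) * (X x - α * x j)) ^ 2 / bf A σ j (x j))) := by
    have h1 : PB j 0 (fun x => (bf A σ j (x j))⁻¹) := PB.bdd (C := δ⁻¹) fun x => by
      rw [abs_inv, abs_of_pos (hδ.trans_le (hbl j (x j)))]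
      exact inv_anti₀ hδ (hbl j (x j))
    have h2 : PB j 2 (fun x => pd j X x - x j * bf A σ j (x j) * (X x - α * x j)) :=
      ((gpX j).mono (by norm_num)).sub ((gc.mul gb).mul gv)
    have h3 := ((PB.const 2).mul g1).mul (h2.sq.mul h1)
    simpa [div_eq_mul_inv] using h3
  have iS := hint _ cS gS
  have hSq : 0 ≤ ∫ x, (2 * deriv (A j) (x j ^ 2) *
      ((pd j X x - x j * bf A σ j (x j) * (X x - α * x j)) ^ 2 / bf A σ j (x j))) *
        Real.exp (-(Psi A σ ψ x)) := by
    refine integral_nonneg fun x => mul_nonneg (mul_nonneg (mul_nonneg zero_le_two ?_) ?_)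
      (Real.exp_pos _).le
    · obtain ⟨δ', hδ', hd'⟩ := (hA j).lo
      exact hδ'.le.trans (hd' _ (sq_nonneg _))
    · exact div_nonneg (sq_nonneg _) (bf_pos hA hσ j (x j)).le
  -- integration by parts in the direction `j`
  let f : (Fin (m + 1) → ℝ) → ℝ := fun x => 2 * x j * deriv (A j) (x j ^ 2)
  let g : (Fin (m + 1) → ℝ) → ℝ := fun x => (X x - α * x j) ^ 2 * Real.exp (-(Psi A σ ψ x))
  have hproj : ∀ x, HasFDerivAt (fun x : Fin (m + 1) → ℝ => x j)
      (ContinuousLinearMap.proj (R := ℝ) (φ := fun _ : Fin (m + 1) => ℝ) j) x := fun x =>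
    (ContinuousLinearMap.proj (R := ℝ) (φ := fun _ : Fin (m + 1) => ℝ) j).hasFDerivAt
  have hf1 : ∀ x, HasFDerivAt f ((2 * deriv (A j) (x j ^ 2) +
      4 * x j ^ 2 * deriv (deriv (A j)) (x j ^ 2)) •
      (ContinuousLinearMap.proj (R := ℝ) (φ := fun _ : Fin (m + 1) => ℝ) j)) x := by
    intro x
    have h1 : HasDerivAt (fun s : ℝ => s ^ 2) (2 * x j) (x j) := by
      simpa using hasDerivAt_pow 2 (x j)
    have h2 : HasDerivAt (fun s : ℝ => deriv (A j) (s ^ 2))
        (deriv (deriv (A j)) (x j ^ 2) * (2 * x j)) (x j) :=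
      (((Adm.smooth' (hA j)).differentiable (by simp)) _).hasDerivAt.comp (x j) h1
    have h3 : HasDerivAt (fun s : ℝ => 2 * s * deriv (A j) (s ^ 2))
        (2 * 1 * deriv (A j) (x j ^ 2) + 2 * x j * (deriv (deriv (A j)) (x j ^ 2) * (2 * x j)))
        (x j) := ((hasDerivAt_id (x j)).const_mul 2).mul h2
    have h4 := h3.comp_hasFDerivAt x (hproj x)
    refine h4.congr_fderiv ?_
    congr 1
    ring
  have hg1 : ∀ x, pd j g x = (2 * (X x - α * x j) * (pd j X x - α) -
      (X x - α * x j) ^ 2 * (x j * bf A σ j (x j) + pd j ψ x)) *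
      Real.exp (-(Psi A σ ψ x)) := by
    intro x
    have h1 : HasFDerivAt (fun x => X x - α * x j) (fderiv ℝ X x - α •
        (ContinuousLinearMap.proj (R := ℝ) (φ := fun _ : Fin (m + 1) => ℝ) j)) x :=
      (hXs.differentiable (by simp) x).hasFDerivAt.sub ((hproj x).const_mul α)
    have h2 : HasFDerivAt (Psi A σ ψ) (fderiv ℝ (Psi A σ ψ) x) x :=
      (hPs.differentiable (by simp) x).hasFDerivAt
    have h3 : HasFDerivAt g _ x := (h1.pow 2).mul (h2.neg.exp)
    have h4 : fderiv ℝ (Psi A σ ψ) x (Pi.single j 1) = x j * bf A σ j (x j) + pd j ψ x :=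
      pd_Psi hA (hψ.differentiable (by simp)) j x
    unfold pd
    rw [h3.fderiv]
    simp only [add_apply, smul_apply, neg_apply, sub_apply, smul_eq_mul, Nat.add_one_sub_one,
      pow_one, Nat.cast_ofNat, nsmul_eq_mul, Pi.neg_apply, h4, ContinuousLinearMap.proj_apply,
      Pi.single_eq_same]
    unfold pd
    ring
  have hg2 : Differentiable ℝ g := by
    intro x
    have h1 : DifferentiableAt ℝ (fun x => X x - α * x j) x :=
      (hXs.differentiable (by simp) x).sub ((hproj x).differentiableAt.const_mul α)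
    exact (h1.pow 2).mul ((hPs.differentiable (by simp) x).neg.exp)
  have gf : PB j 1 f := by
    have h := ((PB.const (j := j) 2).mul gc).mul g1
    exact h
  have gf' : PB j 2 (fun x => 2 * deriv (A j) (x j ^ 2) +
      4 * x j ^ 2 * deriv (deriv (A j)) (x j ^ 2)) :=
    (((PB.const 2).mul g1).mono (by norm_num)).add (((PB.const 4).mul gc.sq).mul g2)
  have cf' : Continuous (fun x : Fin (m + 1) → ℝ => 2 * deriv (A j) (x j ^ 2) +
      4 * x j ^ 2 * deriv (deriv (A j)) (x j ^ 2)) :=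
    (continuous_const.mul hA1).add ((continuous_const.mul (hcj.pow 2)).mul hA2)
  have cf : Continuous f := (continuous_const.mul hcj).mul hA1
  have i1 : Integrable (fun x => ((2 * deriv (A j) (x j ^ 2) +
      4 * x j ^ 2 * deriv (deriv (A j)) (x j ^ 2)) * (X x - α * x j) ^ 2) *
      Real.exp (-(Psi A σ ψ x))) := hint _ (cf'.mul (hcv.pow 2)) (gf'.mul gv2)
  have ce : Continuous (fun x => f x * (2 * (X x - α * x j) * (pd j X x - α) -
      (X x - α * x j) ^ 2 * (x j * bf A σ j (x j) + pd j ψ x))) :=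
    cf.mul (((continuous_const.mul hcv).mul ((hcpX j).sub continuous_const)).sub
      ((hcv.pow 2).mul ((hcj.mul (hcb j)).add (hcpψ j))))
  have ge : PB j 4 (fun x => f x * (2 * (X x - α * x j) * (pd j X x - α) -
      (X x - α * x j) ^ 2 * (x j * bf A σ j (x j) + pd j ψ x))) := by
    have h1 : PB j 3 (fun x => 2 * (X x - α * x j) * (pd j X x - α)) :=
      (((PB.const 2).mul gv).mul ((gpX j).sub (PB.const α))).mono (by norm_num)
    have h2 : PB j 1 (fun x => x j * bf A σ j (x j) + pd j ψ x) :=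
      (gc.mul gb).add (gpψ.mono (by norm_num))
    exact gf.mul (h1.sub (gv2.mul h2))
  have i2 := hint _ ce ge
  have i3 : Integrable (fun x => f x * g x) := by
    have := hint (fun x => f x * (X x - α * x j) ^ 2) (cf.mul (hcv.pow 2))
      ((gf.mul gv2).mono (by norm_num))
    refine this.congr (Eventually.of_forall fun x => ?_)
    simp only [g]
    ring
  have hIBP := integral_mul_fderiv_eq_neg_fderiv_mul_of_integrable (μ := volume) (f := f) (g := g)
    (v := Pi.single j 1)
    (by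
      refine i1.congr (Eventually.of_forall fun x => ?_)
      simp only [(hf1 x).fderiv, g, smul_apply, ContinuousLinearMap.proj_apply,
        Pi.single_eq_same, smul_eq_mul]
      ring)
    (by
      refine i2.congr (Eventually.of_forall fun x => ?_)
      simp only
      have h := hg1 x
      unfold pd at h
      rw [h]
      unfold pd
      ring)
    i3 (fun x _ => (hf1 x).differentiableAt) (fun x _ => hg2 x)
  have e1 : ∫ x, f x * fderiv ℝ g x (Pi.single j 1) = ∫ x, (f x * (2 * (X x - α * x j) *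
      (pd j X x - α) - (X x - α * x j) ^ 2 * (x j * bf A σ j (x j) + pd j ψ x))) *
      Real.exp (-(Psi A σ ψ x)) := by
    refine integral_congr_ae (Eventually.of_forall fun x => ?_)
    simp only
    have h := hg1 x
    unfold pd at h
    rw [h]
    unfold pd
    ring
  have e2 : ∫ x, fderiv ℝ f x (Pi.single j 1) * g x = ∫ x, ((2 * deriv (A j) (x j ^ 2) +
      4 * x j ^ 2 * deriv (deriv (A j)) (x j ^ 2)) * (X x - α * x j) ^ 2) *
      Real.exp (-(Psi A σ ψ x)) := by
    refine integral_congr_ae (Eventually.of_forall fun x => ?_)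
    simp only [(hf1 x).fderiv, g, smul_apply, ContinuousLinearMap.proj_apply,
        Pi.single_eq_same, smul_eq_mul]
    ring
  rw [e1, e2] at hIBP
  -- assembly
  have cR : Continuous (fun x => 2 * deriv (A j) (x j ^ 2) * (∑ l, pd l X x ^ 2 /
      bf A σ l (x l)) - 4 * α * x j * deriv (A j) (x j ^ 2) * (X x - α * x j)) :=
    ((continuous_const.mul hA1).mul (continuous_finsetSum _ fun l _ =>
      ((hcpX l).pow 2).div₀ (hcb l) (hbn l))).sub
      (((continuous_const.mul hcj).mul hA1).mul hcv)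
  have gR : PB j 4 (fun x => 2 * deriv (A j) (x j ^ 2) * (∑ l, pd l X x ^ 2 /
      bf A σ l (x l)) - 4 * α * x j * deriv (A j) (x j ^ 2) * (X x - α * x j)) := by
    have h1 : PB j 4 (fun x => 2 * deriv (A j) (x j ^ 2) * (∑ l, pd l X x ^ 2 /
      bf A σ l (x l))) := (((PB.const 2).mul g1).mul (PB.sum _ fun l _ => gq l)).mono
        (by norm_num)
    have h2 : PB j 4 (fun x => 4 * α * x j * deriv (A j) (x j ^ 2) * (X x - α * x j)) :=
      ((((PB.const (4 * α)).mul gc).mul g1).mul gv).mono (by norm_num)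
    exact h1.sub h2
  have iR := hint _ cR gR
  have hT : ∫ x, (2 * deriv (A j) (x j ^ 2) * (∑ l, pd l X x ^ 2 / bf A σ l (x l)) +
        (2 * deriv (A j) (x j ^ 2) + 4 * x j ^ 2 * deriv (deriv (A j)) (x j ^ 2)) *
          (X x - α * x j) ^ 2 -
        4 * α * x j * deriv (A j) (x j ^ 2) * (X x - α * x j)) * Real.exp (-(Psi A σ ψ x)) =
      (∫ x, (2 * deriv (A j) (x j ^ 2) * (∑ l, pd l X x ^ 2 /
        bf A σ l (x l)) - 4 * α * x j * deriv (A j) (x j ^ 2) * (X x - α * x j)) *
        Real.exp (-(Psi A σ ψ x))) + ∫ x, ((2 * deriv (A j) (x j ^ 2) +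
      4 * x j ^ 2 * deriv (deriv (A j)) (x j ^ 2)) * (X x - α * x j) ^ 2) *
      Real.exp (-(Psi A σ ψ x)) := by
    rw [← integral_add iR i1]
    refine integral_congr_ae (Eventually.of_forall fun x => ?_)
    simp only
    ring
  have hU : (∫ x, (2 * deriv (A j) (x j ^ 2) * (∑ l, pd l X x ^ 2 /
        bf A σ l (x l)) - 4 * α * x j * deriv (A j) (x j ^ 2) * (X x - α * x j)) *
        Real.exp (-(Psi A σ ψ x))) - ∫ x, (f x * (2 * (X x - α * x j) *
      (pd j X x - α) - (X x - α * x j) ^ 2 * (x j * bf A σ j (x j) + pd j ψ x))) *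
      Real.exp (-(Psi A σ ψ x)) = (∫ x, (2 * deriv (A j) (x j ^ 2) *
      ((pd j X x - x j * bf A σ j (x j) * (X x - α * x j)) ^ 2 / bf A σ j (x j))) *
        Real.exp (-(Psi A σ ψ x))) + ∫ x, (2 * deriv (A j) (x j ^ 2) * (x j * pd j ψ x *
      (X x - α * x j) ^ 2 + ∑ l, pd (j.succAbove l) X x ^ 2 /
        bf A σ (j.succAbove l) (x (j.succAbove l)))) * Real.exp (-(Psi A σ ψ x)) := by
    rw [← integral_sub iR i2, ← integral_add iS iZ]
    refine integral_congr_ae (Eventually.of_forall fun x => ?_)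
    simp only [f]
    rw [Fin.sum_univ_succAbove _ j]
    have hb := hbn j x
    generalize (∑ l, pd (j.succAbove l) X x ^ 2 /
        bf A σ (j.succAbove l) (x (j.succAbove l))) = T
    generalize bf A σ j (x j) = β at hb ⊢
    field_simp
    ring
  rw [hT]
  linarith

end Pool.Agent.Lib.MP_2d002d_gt.H74
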