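import Pool.Agent.Lib.MP_2d002d_gt.H74.Knothe1

/-!
# MP_2d002d_gt, module M5 (helper74): the Knothe map
-/

set_option autoImplicit false

open MeasureTheory Set Filter Topology
open scoped ContDiff

namespace Pool.Agent.Lib.MP_2d002d_gt.H74

/-- A continuous family of potentials with locally uniform quadratic lower bounds. -/
structure Pot {T : Type} [TopologicalSpace T] {n : ℕ} (P : T → (Fin n → ℝ) → ℝ) : Prop where
  cont : Continuous (fun z : T × (Fin n → ℝ) => P z.1 z.2)
  low : ∀ t0, ∃ c : ℝ, 0 < c ∧ ∃ C : ℝ, ∀ᶠ t in 𝓝 t0, ∀ x, c * ∑ i, x i ^ 2 - C ≤ P t x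

namespace Pot

variable {T : Type} [TopologicalSpace T] {n : ℕ} {P : T → (Fin n → ℝ) → ℝ} (hP : Pot P)

include hP

theorem cont_right (t : T) : Continuous (P t) := by
  have h : Continuous (fun x : Fin n → ℝ => ((t, x) : T × (Fin n → ℝ))) := by fun_prop
  exact hP.cont.comp h

theorem integrable (t : T) : Integrable (fun x => Real.exp (-P t x)) := by
  obtain ⟨c, hc, C, h⟩ := hP.low t
  exact integrable_exp_neg (hP.cont_right t) ⟨c, hc, C, h.self_of_nhds⟩

theorem mass_pos (t : T) : 0 < ∫ x, Real.exp (-P t x) := integral_exp_pos (hP.integrable t)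

theorem continuous_mass [FirstCountableTopology T] :
    Continuous (fun t => ∫ x, Real.exp (-P t x)) := by
  rw [continuous_iff_continuousAt]
  intro t0
  obtain ⟨c, hc, C, h⟩ := hP.low t0
  refine continuousAt_of_dominated (bound := fun x : Fin n → ℝ => Real.exp C *
    Real.exp (-(c * ∑ i, x i ^ 2))) ?_ ?_ ((integrable_exp_neg_sum_sq hc).const_mul _) ?_
  · exact Eventually.of_forall fun t => (hP.cont_right t).neg.rexp.aestronglyMeasurable
  · filter_upwards [h] with t ht
    refine Eventually.of_forall fun x => ?_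
    rw [Real.norm_eq_abs, abs_of_pos (Real.exp_pos _), ← Real.exp_add]
    apply Real.exp_le_exp.mpr
    have := ht x
    linarith
  · refine Eventually.of_forall fun x => ?_
    have h1 : Continuous (fun t : T => ((t, x) : T × (Fin n → ℝ))) := by fun_prop
    exact (hP.cont.comp h1).neg.rexp.continuousAt

end Pot

section Step

variable {T : Type} [TopologicalSpace T] {n : ℕ} {P : T → (Fin (n + 1) → ℝ) → ℝ}

theorem sum_sq_insL (y : ℝ) (z : Fin n → ℝ) :
    ∑ i, (insL 0 (y, z)) i ^ 2 = y ^ 2 + ∑ i, z i ^ 2 := by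
  rw [Fin.sum_univ_succAbove _ 0, insL_same]
  simp only [insL_succAbove]

/-- The slices of a family of potentials. -/
theorem Pot.slices (hP : Pot P) : Pot (fun (s : T × ℝ) (z : Fin n → ℝ) => P s.1 (insL 0 (s.2, z))) where
  cont := by
    have h : Continuous (fun w : (T × ℝ) × (Fin n → ℝ) =>
        ((w.1.1, insL 0 (w.1.2, w.2)) : T × (Fin (n + 1) → ℝ))) :=
      (continuous_fst.comp continuous_fst).prodMk ((insL 0).continuous.comp
        ((continuous_snd.comp continuous_fst).prodMk continuous_snd))
    exact hP.cont.comp h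
  low := by
    rintro ⟨t0, y0⟩
    obtain ⟨c, hc, C, h⟩ := hP.low t0
    refine ⟨c, hc, C, ?_⟩
    filter_upwards [(continuous_fst.tendsto (t0, y0)).eventually h] with s hs z
    have h1 := hs (insL 0 (s.2, z))
    rw [sum_sq_insL] at h1
    have h2 : 0 ≤ c * s.2 ^ 2 := by positivity
    nlinarith

/-- Fubini. -/
theorem integral_insL {f : (Fin (n + 1) → ℝ) → ℝ} (hf : Integrable f) :
    ∫ x, f x = ∫ y : ℝ, ∫ z : Fin n → ℝ, f (insL 0 (y, z)) := by
  have hmp := (volume_preserving_piFinSuccAbove (fun _ : Fin (n + 1) => ℝ) 0).symm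
  have h1 : ∫ x, f x = ∫ z : ℝ × (Fin n → ℝ), f (insL 0 z) := by
    rw [← hmp.integral_comp (MeasurableEquiv.measurableEmbedding _)]
    rfl
  have h2 : Integrable (fun z : ℝ × (Fin n → ℝ) => f (insL 0 z)) := by
    have := (hmp.integrable_comp_emb (MeasurableEquiv.measurableEmbedding _)).mpr hf
    exact this
  rw [h1, Measure.volume_eq_prod, integral_prod _ (by rwa [← Measure.volume_eq_prod])]

theorem integrable_insL {f : (Fin (n + 1) → ℝ) → ℝ} (hf : Integrable f) :
    Integrable (fun y : ℝ => ∫ z : Fin n → ℝ, f (insL 0 (y, z))) := by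
  have hmp := (volume_preserving_piFinSuccAbove (fun _ : Fin (n + 1) => ℝ) 0).symm
  have h2 : Integrable (fun z : ℝ × (Fin n → ℝ) => f (insL 0 z)) := by
    have := (hmp.integrable_comp_emb (MeasurableEquiv.measurableEmbedding _)).mpr hf
    exact this
  rw [Measure.volume_eq_prod] at h2
  exact h2.integral_prod_left

/-- The densities of the first coordinate. -/
theorem Pot.dn [FirstCountableTopology T] (hP : Pot P) :
    Dn (fun (t : T) (y : ℝ) => ∫ z : Fin n → ℝ, Real.exp (-P t (insL 0 (y, z)))) where
  cont := hP.slices.continuous_mass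
  pos t y := hP.slices.mass_pos (t, y)
  dom t0 := by
    obtain ⟨c, hc, C, h⟩ := hP.low t0
    refine ⟨fun y => (Real.exp C * ∫ z : Fin n → ℝ, Real.exp (-(c * ∑ i, z i ^ 2))) *
      Real.exp (-c * y ^ 2), (integrable_exp_neg_mul_sq hc).const_mul _, ?_⟩
    filter_upwards [h] with t ht y
    rw [mul_right_comm, ← integral_const_mul]
    refine integral_mono (hP.slices.integrable (t, y))
      ((integrable_exp_neg_sum_sq hc).const_mul _) (fun z => ?_)
    simp only
    rw [← Real.exp_add, ← Real.exp_add]
    apply Real.exp_le_exp.mpr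
    have h1 := ht (insL 0 (y, z))
    rw [sum_sq_insL] at h1
    nlinarith

/-- The normalised slices. -/
theorem Pot.cond [FirstCountableTopology T] (hP : Pot P) {N : T → ℝ → ℝ}
    (hN : Continuous (fun z : T × ℝ => N z.1 z.2)) :
    Pot (fun (s : T × ℝ) (z : Fin n → ℝ) => P s.1 (insL 0 (N s.1 s.2, z)) +
      Real.log (∫ z : Fin n → ℝ, Real.exp (-P s.1 (insL 0 (N s.1 s.2, z))))) := by
  have hN2 : Continuous (fun s : T × ℝ => ((s.1, N s.1 s.2) : T × ℝ)) := continuous_fst.prodMk hN
  have hm : Continuous (fun s : T × ℝ => Real.log (∫ z : Fin n → ℝ,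
      Real.exp (-P s.1 (insL 0 (N s.1 s.2, z))))) :=
    (hP.slices.continuous_mass.comp hN2).log (fun s => (hP.slices.mass_pos (s.1, N s.1 s.2)).ne')
  constructor
  · have h : Continuous (fun w : (T × ℝ) × (Fin n → ℝ) =>
        (((w.1.1, N w.1.1 w.1.2), w.2) : (T × ℝ) × (Fin n → ℝ))) :=
      (hN2.comp continuous_fst).prodMk continuous_snd
    exact (hP.slices.cont.comp h).add (hm.comp continuous_fst)
  · intro s0
    obtain ⟨c, hc, C, h⟩ := hP.slices.low (s0.1, N s0.1 s0.2)
    have h1 := hN2.continuousAt.eventually h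
    have h2 : ∀ᶠ s in 𝓝 s0, Real.log (∫ z : Fin n → ℝ,
        Real.exp (-P s0.1 (insL 0 (N s0.1 s0.2, z)))) - 1 < Real.log (∫ z : Fin n → ℝ,
        Real.exp (-P s.1 (insL 0 (N s.1 s.2, z)))) :=
      hm.continuousAt.eventually (lt_mem_nhds (by linarith))
    refine ⟨c, hc, C - (Real.log (∫ z : Fin n → ℝ,
      Real.exp (-P s0.1 (insL 0 (N s0.1 s0.2, z)))) - 1), ?_⟩
    filter_upwards [h1, h2] with s hs hs' z
    have := hs z
    linarith

theorem cond_mass {Q : (Fin n → ℝ) → ℝ} (hQ : Integrable (fun z => Real.exp (-Q z))) :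
    ∫ z, Real.exp (-(Q z + Real.log (∫ z, Real.exp (-Q z)))) = 1 := by
  have h0 : 0 < ∫ z, Real.exp (-Q z) := integral_exp_pos hQ
  have e : ∀ z, Real.exp (-(Q z + Real.log (∫ z, Real.exp (-Q z)))) =
      (∫ z, Real.exp (-Q z))⁻¹ * Real.exp (-Q z) := by
    intro z
    rw [neg_add, Real.exp_add, Real.exp_neg (Real.log _), Real.exp_log h0]
    ring
  simp only [e]
  rw [integral_const_mul, inv_mul_cancel₀ h0.ne']

theorem isClosedEmbedding_insL (y : ℝ) :
    Topology.IsClosedEmbedding (fun z : Fin n → ℝ => insL 0 (y, z)) := by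
  refine Function.LeftInverse.isClosedEmbedding (f := fun (x : Fin (n + 1) → ℝ) (l : Fin n) =>
    x ((0 : Fin (n + 1)).succAbove l)) (fun z => ?_) (by fun_prop) (by fun_prop)
  funext l
  exact insL_succAbove 0 y z l

theorem insL_eta (x : Fin (n + 1) → ℝ) :
    insL 0 (x 0, fun l : Fin n => x ((0 : Fin (n + 1)).succAbove l)) = x := by
  funext k
  refine Fin.succAboveCases 0 ?_ (fun l => ?_) k
  · rw [insL_same]
  · rw [insL_succAbove]

end Step

/-- The Knothe map with parameters. -/
theorem knothe_par (n : ℕ) : ∀ (T : Type) [TopologicalSpace T] [FirstCountableTopology T]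
    (P Q : T → (Fin n → ℝ) → ℝ), Pot P → Pot Q →
    (∀ t, ∫ x, Real.exp (-P t x) = ∫ x, Real.exp (-Q t x)) →
    ∃ N : T → (Fin n → ℝ) → (Fin n → ℝ), Continuous (fun z : T × (Fin n → ℝ) => N z.1 z.2) ∧
      ∀ (t : T) (w : (Fin n → ℝ) → ℝ), ContDiff ℝ 1 w → HasCompactSupport w → (∀ x, 0 ≤ w x) →
        ∫ x, w x * (Q t (N t x) - P t x) ≤ - ∑ j, ∫ x, (N t x j - x j) * pd j w x := by
  induction n with
  | zero =>
    intro T _ _ P Q hP hQ hm
    refine ⟨fun _ x => x, continuous_snd, fun t w _ _ _ => ?_⟩
    have h1 : ∀ x : Fin 0 → ℝ, Q t x = P t x := by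
      intro x
      have h2 := hm t
      have e1 : ∀ F : (Fin 0 → ℝ) → ℝ, ∫ y, F y = F x := by
        intro F
        have : F = fun _ => F x := funext fun y => congrArg F (Subsingleton.elim _ _)
        have h1 : (volume : Measure (Fin 0 → ℝ)).real univ = 1 := by
          rw [Measure.real, volume_pi, Measure.pi_univ]
          simp
        rw [this, integral_const, h1, one_smul]
      rw [e1, e1] at h2
      have h3 := Real.exp_injective h2
      linarith
    simp [h1]
  | succ n ih =>
    intro T _ _ P Q hP hQ hm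
    set p : T → ℝ → ℝ := fun t y => ∫ z : Fin n → ℝ, Real.exp (-P t (insL 0 (y, z))) with hp
    set q : T → ℝ → ℝ := fun t y => ∫ z : Fin n → ℝ, Real.exp (-Q t (insL 0 (y, z))) with hq
    have dp : Dn p := hP.dn
    have dq : Dn q := hQ.dn
    obtain ⟨N1, hN1, hN1'⟩ := knothe1 dp dq (fun t => by
      have h := hm t
      rw [integral_insL (hP.integrable t), integral_insL (hQ.integrable t)] at h
      exact h)
    have cP := hP.cond (N := fun _ y => y) continuous_snd
    have cQ := hQ.cond hN1
    obtain ⟨N', hN', hin⟩ := ih (T × ℝ) _ _ cP cQ (fun s => by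
      rw [cond_mass (hP.slices.integrable (s.1, s.2)),
        cond_mass (hQ.slices.integrable (s.1, N1 s.1 s.2))])
    let tl : (Fin (n + 1) → ℝ) → (Fin n → ℝ) := fun x l => x ((0 : Fin (n + 1)).succAbove l)
    have ctl : Continuous tl := by fun_prop
    let N : T → (Fin (n + 1) → ℝ) → (Fin (n + 1) → ℝ) := fun t x =>
      insL 0 (N1 t (x 0), N' (t, x 0) (tl x))
    have hNc : Continuous (fun z : T × (Fin (n + 1) → ℝ) => N z.1 z.2) := by
      have h1 : Continuous (fun z : T × (Fin (n + 1) → ℝ) => N1 z.1 (z.2 0)) :=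
        hN1.comp (by fun_prop : Continuous (fun z : T × (Fin (n + 1) → ℝ) => (z.1, z.2 0)))
      have h2 : Continuous (fun z : T × (Fin (n + 1) → ℝ) => N' (z.1, z.2 0) (tl z.2)) :=
        hN'.comp (by fun_prop : Continuous (fun z : T × (Fin (n + 1) → ℝ) =>
          ((z.1, z.2 0), tl z.2)))
      exact (insL 0).continuous.comp (h1.prodMk h2)
    refine ⟨N, hNc, fun t w hw hwc hw0 => ?_⟩
    have hNt : Continuous (N t) :=
      hNc.comp (by fun_prop : Continuous (fun x : Fin (n + 1) → ℝ => (t, x)))
    have hN1t : Continuous (N1 t) := hN1.comp (by fun_prop : Continuous (fun y : ℝ => (t, y)))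
    -- the two parts
    let R : (Fin (n + 1) → ℝ) → ℝ := fun x =>
      (Q t (insL 0 (N1 t (x 0), N' (t, x 0) (tl x))) + Real.log (q t (N1 t (x 0)))) -
        (P t (insL 0 (x 0, tl x)) + Real.log (p t (x 0)))
    let L : (Fin (n + 1) → ℝ) → ℝ := fun x => Real.log (p t (x 0)) - Real.log (q t (N1 t (x 0)))
    have cL : Continuous L := by
      have h1 : Continuous (fun y : ℝ => Real.log (p t y)) :=
        (dp.cont_right t).log (fun y => (dp.pos t y).ne')
      have h2 : Continuous (fun y : ℝ => Real.log (q t (N1 t y))) :=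
        ((dq.cont_right t).comp hN1t).log (fun y => (dq.pos t _).ne')
      exact (h1.comp (continuous_apply 0)).sub (h2.comp (continuous_apply 0))
    have hsum : ∀ x, Q t (N t x) - P t x = R x + L x := by
      intro x
      simp only [R, L, N]
      rw [insL_eta x]
      ring
    have cR : Continuous R := by
      have h1 : Continuous (fun x => Q t (N t x) - P t x - L x) :=
        (((hQ.cont_right t).comp hNt).sub (hP.cont_right t)).sub cL
      have e : R = fun x => Q t (N t x) - P t x - L x := by
        funext x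
        rw [hsum]
        ring
      rw [e]
      exact h1
    have hint : ∀ f : (Fin (n + 1) → ℝ) → ℝ, Continuous f → (∀ x, w x = 0 → (∀ l, pd l w x = 0) →
        f x = 0) → Integrable f := by
      intro f hf h0
      refine hf.integrable_of_hasCompactSupport (HasCompactSupport.intro hwc (fun x hx =>
        h0 x (image_eq_zero_of_notMem_tsupport hx) (fun l => ?_)))
      unfold pd
      rw [fderiv_of_notMem_tsupport (𝕜 := ℝ) hx]
      rfl
    have hcw : Continuous w := hw.continuous
    have hcpd : ∀ l, Continuous (pd l w) := fun l => continuous_pd hw l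
    have iR : Integrable (fun x => w x * R x) := hint _ (hcw.mul cR) (fun x h1 _ => by simp [h1])
    have iL : Integrable (fun x => w x * L x) := hint _ (hcw.mul cL) (fun x h1 _ => by simp [h1])
    have cS : ∀ l : Fin n, Continuous (fun x => (N t x ((0 : Fin (n + 1)).succAbove l) -
        x ((0 : Fin (n + 1)).succAbove l)) * pd ((0 : Fin (n + 1)).succAbove l) w x) := fun l =>
      (((continuous_apply _).comp hNt).sub (continuous_apply _)).mul (hcpd _)
    have iS : ∀ l : Fin n, Integrable (fun x => (N t x ((0 : Fin (n + 1)).succAbove l) -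
        x ((0 : Fin (n + 1)).succAbove l)) * pd ((0 : Fin (n + 1)).succAbove l) w x) := fun l =>
      hint _ (cS l) (fun x _ h2 => by simp [h2])
    -- part one
    have p1 : ∫ x, w x * R x ≤ - ∑ l : Fin n, ∫ x, (N t x ((0 : Fin (n + 1)).succAbove l) -
        x ((0 : Fin (n + 1)).succAbove l)) * pd ((0 : Fin (n + 1)).succAbove l) w x := by
      rw [← integral_finsetSum _ (fun l _ => iS l), ← integral_neg]
      have iS' : Integrable (fun x => -∑ l : Fin n, (N t x ((0 : Fin (n + 1)).succAbove l) -
        x ((0 : Fin (n + 1)).succAbove l)) * pd ((0 : Fin (n + 1)).succAbove l) w x) :=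
        (integrable_finsetSum _ (fun l _ => iS l)).neg
      rw [integral_insL iR, integral_insL iS']
      refine integral_mono (integrable_insL iR) (integrable_insL iS') (fun y => ?_)
      simp only
      have hemb := isClosedEmbedding_insL (n := n) y
      have hwy : ContDiff ℝ 1 (fun z : Fin n → ℝ => w (insL 0 (y, z))) :=
        hw.comp ((insL 0).contDiff.comp (contDiff_const.prodMk contDiff_id))
      have hwyc : HasCompactSupport (fun z : Fin n → ℝ => w (insL 0 (y, z))) :=
        hwc.comp_isClosedEmbedding hemb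
      have h1 := hin (t, y) (fun z => w (insL 0 (y, z))) hwy hwyc (fun z => hw0 _)
      have hpd : ∀ (l : Fin n) (z : Fin n → ℝ), pd l (fun z => w (insL 0 (y, z))) z =
          pd ((0 : Fin (n + 1)).succAbove l) w (insL 0 (y, z)) := by
        intro l z
        have := pd_insL (m := n) 0 (hw.differentiable (by simp)) y z l 0
        simpa only [sub_zero] using this
      have htl : ∀ z : Fin n → ℝ, tl (insL 0 (y, z)) = z := by
        intro z
        funext l
        exact insL_succAbove 0 y z l
      have e1 : ∫ z, w (insL 0 (y, z)) * R (insL 0 (y, z)) = ∫ z : Fin n → ℝ,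
          w (insL 0 (y, z)) * ((Q (t, y).1 (insL 0 (N1 (t, y).1 (t, y).2, N' (t, y) z)) +
            Real.log (∫ z : Fin n → ℝ, Real.exp (-Q (t, y).1 (insL 0 (N1 (t, y).1 (t, y).2, z))))) -
          (P (t, y).1 (insL 0 ((t, y).2, z)) + Real.log (∫ z : Fin n → ℝ,
            Real.exp (-P (t, y).1 (insL 0 ((t, y).2, z)))))) := by
        refine integral_congr_ae (Eventually.of_forall fun z => ?_)
        simp only [R, htl, insL_same, hp, hq]
      rw [e1]
      refine h1.trans (le_of_eq ?_)
      rw [integral_neg, integral_finsetSum]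
      · congr 1
        refine Finset.sum_congr rfl fun l _ => ?_
        refine integral_congr_ae (Eventually.of_forall fun z => ?_)
        simp only [hpd, N, insL_same, insL_succAbove, htl]
      · intro l _
        have hc : Continuous (fun z : Fin n → ℝ => (N t (insL 0 (y, z))
            ((0 : Fin (n + 1)).succAbove l) - insL 0 (y, z) ((0 : Fin (n + 1)).succAbove l)) *
            pd ((0 : Fin (n + 1)).succAbove l) w (insL 0 (y, z))) :=
          (cS l).comp hemb.continuous
        refine hc.integrable_of_hasCompactSupport ?_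
        refine HasCompactSupport.intro hwyc (fun z hz => ?_)
        have h2 : pd l (fun z => w (insL 0 (y, z))) z = 0 := by
          unfold pd
          rw [fderiv_of_notMem_tsupport (𝕜 := ℝ) hz]
          rfl
        rw [← hpd, h2, mul_zero]
    -- part two
    have p2 : ∫ x, w x * L x ≤ - ∫ x, (N t x 0 - x 0) * pd 0 w x := by
      let f : (Fin (n + 1) → ℝ) → ℝ := fun x => N1 t (x 0) - x 0
      have cf : Continuous f := (hN1t.comp (continuous_apply 0)).sub (continuous_apply 0)
      have cr : Continuous (fun y : ℝ => p t y / q t (N1 t y)) :=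
        (dp.cont_right t).div₀ ((dq.cont_right t).comp hN1t) (fun y => (dq.pos t _).ne')
      have cf' : Continuous (fun x : Fin (n + 1) → ℝ => p t (x 0) / q t (N1 t (x 0)) - 1) :=
        (cr.comp (continuous_apply 0)).sub continuous_const
      have hf1 : ∀ x, HasFDerivAt f ((p t (x 0) / q t (N1 t (x 0)) - 1) •
          (ContinuousLinearMap.proj (R := ℝ) (φ := fun _ : Fin (n + 1) => ℝ) 0)) x := by
        intro x
        have h1 : HasDerivAt (fun y : ℝ => N1 t y - y) (p t (x 0) / q t (N1 t (x 0)) - 1) (x 0) :=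
          (hN1' t (x 0)).sub (hasDerivAt_id (x 0))
        exact h1.comp_hasFDerivAt x
          (ContinuousLinearMap.proj (R := ℝ) (φ := fun _ : Fin (n + 1) => ℝ) 0).hasFDerivAt
      have hIBP := integral_mul_fderiv_eq_neg_fderiv_mul_of_integrable (μ := volume) (f := f)
        (g := w) (v := Pi.single 0 1)
        (by
          have h1 := hint (fun x => (p t (x 0) / q t (N1 t (x 0)) - 1) * w x) (cf'.mul hcw)
            (fun x h1 _ => by simp [h1])
          refine h1.congr (Eventually.of_forall fun x => ?_)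
          simp only [(hf1 x).fderiv, smul_apply, ContinuousLinearMap.proj_apply,
            Pi.single_eq_same, smul_eq_mul, mul_one])
        (hint (fun x => f x * pd 0 w x) (cf.mul (hcpd 0)) (fun x _ h2 => by simp [h2]))
        (hint (fun x => f x * w x) (cf.mul hcw) (fun x h1 _ => by simp [h1]))
        (fun x _ => (hf1 x).differentiableAt) (fun x _ => hw.differentiable (by simp) x)
      have e1 : ∫ x, (N t x 0 - x 0) * pd 0 w x = ∫ x, f x * fderiv ℝ w x (Pi.single 0 1) := by
        refine integral_congr_ae (Eventually.of_forall fun x => ?_)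
        simp only [N, insL_same, f]
        rfl
      rw [e1, hIBP, neg_neg]
      refine integral_mono iL ?_ (fun x => ?_)
      · have h1 := hint (fun x => (p t (x 0) / q t (N1 t (x 0)) - 1) * w x) (cf'.mul hcw)
            (fun x h1 _ => by simp [h1])
        refine h1.congr (Eventually.of_forall fun x => ?_)
        simp only [(hf1 x).fderiv, smul_apply, ContinuousLinearMap.proj_apply,
          Pi.single_eq_same, smul_eq_mul, mul_one]
      · simp only [(hf1 x).fderiv, smul_apply, ContinuousLinearMap.proj_apply,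
          Pi.single_eq_same, smul_eq_mul, mul_one, L]
        rw [mul_comm]
        refine mul_le_mul_of_nonneg_right ?_ (hw0 x)
        rw [← Real.log_div (dp.pos t _).ne' (dq.pos t _).ne']
        exact Real.log_le_sub_one_of_pos (div_pos (dp.pos t _) (dq.pos t _))
    have e0 : ∫ x, w x * (Q t (N t x) - P t x) = (∫ x, w x * R x) + ∫ x, w x * L x := by
      rw [← integral_add iR iL]
      refine integral_congr_ae (Eventually.of_forall fun x => ?_)
      simp only
      rw [hsum]
      ring
    rw [e0, Fin.sum_univ_succAbove _ 0, neg_add]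
    linarith

theorem knothe : Knothe := by
  intro n P Q hP hQ hPl hQl hm
  have pP : Pot (fun (_ : Unit) => P) := ⟨hP.comp continuous_snd, fun _ => by
    obtain ⟨c, hc, C, h⟩ := hPl
    exact ⟨c, hc, C, Eventually.of_forall fun _ => h⟩⟩
  have pQ : Pot (fun (_ : Unit) => Q) := ⟨hQ.comp continuous_snd, fun _ => by
    obtain ⟨c, hc, C, h⟩ := hQl
    exact ⟨c, hc, C, Eventually.of_forall fun _ => h⟩⟩
  obtain ⟨N, hN, h⟩ := knothe_par n Unit _ _ pP pQ (fun _ => hm)
  exact ⟨N (), hN.comp (by fun_prop : Continuous (fun x : Fin n → ℝ => ((), x))),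
    fun w hw hwc hw0 => h () w hw hwc hw0⟩

end Pool.Agent.Lib.MP_2d002d_gt.H74
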