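import Pool.Agent.Lib.MP_2d002d_gt.H74.JA

/-!
# MP_2d002d_gt, module M5 (helper74): the monotone map on the line, with parameters
-/

set_option autoImplicit false

open MeasureTheory Set Filter Topology
open scoped ContDiff

namespace Pool.Agent.Lib.MP_2d002d_gt.H74

variable {T : Type} [TopologicalSpace T]

/-- A continuous family of positive densities on the line, locally dominated. -/
structure Dn (p : T → ℝ → ℝ) : Prop where
  cont : Continuous (fun z : T × ℝ => p z.1 z.2)
  pos : ∀ t y, 0 < p t y
  dom : ∀ t0, ∃ g : ℝ → ℝ, Integrable g ∧ ∀ᶠ t in 𝓝 t0, ∀ y, p t y ≤ g y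

namespace Dn

variable {p : T → ℝ → ℝ} (hp : Dn p)

include hp

theorem cont_right (t : T) : Continuous (p t) := by
  have h : Continuous (fun y : ℝ => ((t, y) : T × ℝ)) := by fun_prop
  exact hp.cont.comp h

theorem integrable (t : T) : Integrable (p t) := by
  obtain ⟨g, hg, h⟩ := hp.dom t
  refine Integrable.mono' hg (hp.cont_right t).aestronglyMeasurable
    (Eventually.of_forall fun y => ?_)
  rw [Real.norm_eq_abs, abs_of_pos (hp.pos t y)]
  exact h.self_of_nhds y

/-- The distribution function is jointly continuous. -/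
theorem continuous_cdf [FirstCountableTopology T] :
    Continuous (fun z : T × ℝ => ∫ s in Iic z.2, p z.1 s) := by
  rw [continuous_iff_continuousAt]
  rintro ⟨t0, y0⟩
  obtain ⟨g, hg, h⟩ := hp.dom t0
  have e : ∀ z : T × ℝ, ∫ s in Iic z.2, p z.1 s = ∫ s, (Iic z.2).indicator (p z.1) s :=
    fun z => (integral_indicator measurableSet_Iic).symm
  suffices key : Tendsto (fun z : T × ℝ => ∫ s, (Iic z.2).indicator (p z.1) s) (𝓝 (t0, y0))
      (𝓝 (∫ s, (Iic y0).indicator (p t0) s)) by
    simp only [ContinuousAt, e]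
    exact key.trans_eq (by rw [e (t0, y0)])
  refine tendsto_integral_filter_of_dominated_convergence g ?_ ?_ hg ?_
  · refine Eventually.of_forall fun z => ?_
    exact (hp.cont_right z.1).aestronglyMeasurable.indicator measurableSet_Iic
  · have h' : ∀ᶠ z : T × ℝ in 𝓝 (t0, y0), ∀ y, p z.1 y ≤ g y :=
      (continuous_fst.tendsto (t0, y0)).eventually h
    filter_upwards [h'] with z hz
    refine Eventually.of_forall fun s => ?_
    rw [Real.norm_eq_abs]
    by_cases hs : s ∈ Iic z.2
    · rw [indicator_of_mem hs, abs_of_pos (hp.pos _ _)]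
      exact hz s
    · rw [indicator_of_notMem hs, abs_zero]
      exact (hp.pos z.1 s).le.trans (hz s)
  · have hne : ∀ᵐ s : ℝ, s ≠ y0 := by
      rw [ae_iff]
      simp
    filter_upwards [hne] with s hs
    rcases lt_or_gt_of_ne hs with h1 | h1
    · rw [indicator_of_mem (show s ∈ Iic y0 from h1.le)]
      have h2 : Tendsto (fun z : T × ℝ => p z.1 s) (𝓝 (t0, y0)) (𝓝 (p t0 s)) := by
        have h3 : Continuous (fun z : T × ℝ => ((z.1, s) : T × ℝ)) := by fun_prop
        have : Continuous (fun z : T × ℝ => p z.1 s) := hp.cont.comp h3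
        exact this.tendsto (t0, y0)
      refine h2.congr' ?_
      have h3 : ∀ᶠ z : T × ℝ in 𝓝 (t0, y0), s < z.2 :=
        (continuous_snd.tendsto (t0, y0)).eventually (lt_mem_nhds h1)
      filter_upwards [h3] with z hz
      rw [indicator_of_mem (show s ∈ Iic z.2 from hz.le)]
    · rw [indicator_of_notMem (show s ∉ Iic y0 from fun h2 => not_lt.mpr h2 h1)]
      refine tendsto_const_nhds.congr' ?_
      have h3 : ∀ᶠ z : T × ℝ in 𝓝 (t0, y0), z.2 < s :=
        (continuous_snd.tendsto (t0, y0)).eventually (gt_mem_nhds h1)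
      filter_upwards [h3] with z hz
      rw [indicator_of_notMem (show s ∉ Iic z.2 from fun h2 => not_lt.mpr h2 hz)]

theorem hasDerivAt_cdf (t : T) (y : ℝ) :
    HasDerivAt (fun y => ∫ s in Iic y, p t s) (p t y) y := by
  have hi := hp.integrable t
  have e : (fun y => ∫ s in Iic y, p t s) = fun y => (∫ s in (0 : ℝ)..y, p t s) +
      ∫ s in Iic (0 : ℝ), p t s := by
    funext y
    rw [← intervalIntegral.integral_Iic_sub_Iic hi.integrableOn hi.integrableOn]
    ring
  rw [e]
  refine HasDerivAt.add_const _ ?_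
  exact intervalIntegral.integral_hasDerivAt_right (hi.intervalIntegrable)
    ((hp.cont_right t).stronglyMeasurableAtFilter _ _) (hp.cont_right t).continuousAt

theorem strictMono_cdf (t : T) : StrictMono (fun y => ∫ s in Iic y, p t s) := by
  refine strictMono_of_deriv_pos fun y => ?_
  rw [(hp.hasDerivAt_cdf t y).deriv]
  exact hp.pos t y

theorem tendsto_cdf_atTop (t : T) :
    Tendsto (fun y => ∫ s in Iic y, p t s) atTop (𝓝 (∫ s, p t s)) := by
  have e : ∀ y : ℝ, ∫ s in Iic y, p t s = ∫ s, (Iic y).indicator (p t) s :=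
    fun z => (integral_indicator measurableSet_Iic).symm
  simp only [e]
  refine tendsto_integral_filter_of_dominated_convergence (p t) ?_ ?_ (hp.integrable t) ?_
  · exact Eventually.of_forall fun y =>
      (hp.cont_right t).aestronglyMeasurable.indicator measurableSet_Iic
  · refine Eventually.of_forall fun y => Eventually.of_forall fun s => ?_
    rw [Real.norm_eq_abs]
    by_cases hs : s ∈ Iic y
    · rw [indicator_of_mem hs, abs_of_pos (hp.pos _ _)]
    · rw [indicator_of_notMem hs, abs_zero]
      exact (hp.pos t s).le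
  · refine Eventually.of_forall fun s => ?_
    refine tendsto_const_nhds.congr' ?_
    filter_upwards [eventually_ge_atTop s] with y hy
    rw [indicator_of_mem (show s ∈ Iic y from hy)]

theorem tendsto_cdf_atBot (t : T) :
    Tendsto (fun y => ∫ s in Iic y, p t s) atBot (𝓝 0) := by
  have e : ∀ y : ℝ, ∫ s in Iic y, p t s = ∫ s, (Iic y).indicator (p t) s :=
    fun z => (integral_indicator measurableSet_Iic).symm
  simp only [e]
  have h0 : (0 : ℝ) = ∫ _ : ℝ, (0 : ℝ) := by simp
  rw [h0]
  refine tendsto_integral_filter_of_dominated_convergence (p t) ?_ ?_ (hp.integrable t) ?_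
  · exact Eventually.of_forall fun y =>
      (hp.cont_right t).aestronglyMeasurable.indicator measurableSet_Iic
  · refine Eventually.of_forall fun y => Eventually.of_forall fun s => ?_
    rw [Real.norm_eq_abs]
    by_cases hs : s ∈ Iic y
    · rw [indicator_of_mem hs, abs_of_pos (hp.pos _ _)]
    · rw [indicator_of_notMem hs, abs_zero]
      exact (hp.pos t s).le
  · refine Eventually.of_forall fun s => ?_
    refine tendsto_const_nhds.congr' ?_
    filter_upwards [eventually_lt_atBot s] with y hy
    rw [indicator_of_notMem (show s ∉ Iic y from fun h => not_lt.mpr h hy)]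

theorem cdf_pos (t : T) (y : ℝ) : 0 < ∫ s in Iic y, p t s := by
  have h1 := hp.strictMono_cdf t
  have h2 : (0 : ℝ) ≤ ∫ s in Iic (y - 1), p t s :=
    le_of_tendsto (hp.tendsto_cdf_atBot t) (by
      filter_upwards [eventually_le_atBot (y - 1)] with z hz
      exact h1.monotone hz)
  exact h2.trans_lt (h1 (by linarith))

theorem cdf_lt (t : T) (y : ℝ) : ∫ s in Iic y, p t s < ∫ s, p t s := by
  have h1 := hp.strictMono_cdf t
  have h2 : ∫ s in Iic (y + 1), p t s ≤ ∫ s, p t s :=
    ge_of_tendsto (hp.tendsto_cdf_atTop t) (by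
      filter_upwards [eventually_ge_atTop (y + 1)] with z hz
      exact h1.monotone hz)
  exact (h1 (by linarith)).trans_le h2

end Dn

/-- Derivative of an implicitly defined function on the line. -/
theorem hasDerivAt_of_comp {F G N : ℝ → ℝ} {f g y : ℝ} (hF : HasDerivAt F f y)
    (hG : HasDerivAt G g (N y)) (hg : g ≠ 0) (hN : ContinuousAt N y) (h : ∀ z, G (N z) = F z) :
    HasDerivAt N (f / g) y := by
  rw [hasDerivAt_iff_tendsto_slope]
  have h1 : Tendsto (fun z => dslope G (N y) (N z)) (𝓝 y) (𝓝 g) := by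
    have h2 : ContinuousAt (dslope G (N y)) (N y) :=
      continuousAt_dslope_same.mpr hG.differentiableAt
    have h3 : Tendsto (dslope G (N y)) (𝓝 (N y)) (𝓝 g) := by
      have h4 := h2.tendsto
      rwa [dslope_same, hG.deriv] at h4
    exact h3.comp hN.tendsto
  have h5 : Tendsto (fun z => slope F y z / dslope G (N y) (N z)) (𝓝[≠] y) (𝓝 (f / g)) :=
    ((hasDerivAt_iff_tendsto_slope.mp hF)).div (h1.mono_left nhdsWithin_le_nhds) hg
  refine h5.congr' ?_
  have h6 : ∀ᶠ z in 𝓝[≠] y, dslope G (N y) (N z) ≠ 0 :=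
    (h1.mono_left nhdsWithin_le_nhds).eventually_ne hg
  filter_upwards [h6, self_mem_nhdsWithin] with z hz hzy
  have h7 := sub_smul_dslope G (N y) (N z)
  rw [smul_eq_mul, h, h] at h7
  have hzy' : z - y ≠ 0 := sub_ne_zero.mpr hzy
  rw [slope_def_field, slope_def_field, ← h7]
  field_simp

/-- The monotone map. -/
theorem knothe1 [FirstCountableTopology T] {p q : T → ℝ → ℝ} (hp : Dn p) (hq : Dn q)
    (h : ∀ t, ∫ y, p t y = ∫ y, q t y) :
    ∃ N : T → ℝ → ℝ, Continuous (fun z : T × ℝ => N z.1 z.2) ∧
      ∀ t y, HasDerivAt (N t) (p t y / q t (N t y)) y := by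
  have hex : ∀ t y, ∃ x, ∫ s in Iic x, q t s = ∫ s in Iic y, p t s := by
    intro t y
    have h1 := hp.cdf_pos t y
    have h2 := hp.cdf_lt t y
    rw [h] at h2
    have hc : Continuous (fun x => ∫ s in Iic x, q t s) :=
      continuous_iff_continuousAt.mpr fun x => (hq.hasDerivAt_cdf t x).continuousAt
    obtain ⟨a, ha⟩ := ((hq.tendsto_cdf_atBot t).eventually (gt_mem_nhds h1)).exists
    obtain ⟨b, hb⟩ := ((hq.tendsto_cdf_atTop t).eventually (lt_mem_nhds h2)).exists
    exact mem_range_of_exists_le_of_exists_ge hc ⟨a, ha.le⟩ ⟨b, hb.le⟩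
  choose N hN using hex
  have hcont : Continuous (fun z : T × ℝ => N z.1 z.2) := by
    rw [continuous_iff_continuousAt]
    rintro ⟨t0, y0⟩
    rw [ContinuousAt, tendsto_order]
    constructor
    · intro a ha
      have hc : Continuous (fun z : T × ℝ => (∫ s in Iic z.2, p z.1 s) - ∫ s in Iic a, q z.1 s) :=
        hp.continuous_cdf.sub (hq.continuous_cdf.comp (by fun_prop :
          Continuous (fun z : T × ℝ => ((z.1, a) : T × ℝ))))
      have h0 : 0 < (∫ s in Iic y0, p t0 s) - ∫ s in Iic a, q t0 s := by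
        rw [← hN]
        exact sub_pos.mpr (hq.strictMono_cdf t0 ha)
      filter_upwards [hc.continuousAt.eventually (lt_mem_nhds h0)] with z hz
      rw [← hN, sub_pos] at hz
      exact (hq.strictMono_cdf z.1).lt_iff_lt.mp hz
    · intro a ha
      have hc : Continuous (fun z : T × ℝ => (∫ s in Iic z.2, p z.1 s) - ∫ s in Iic a, q z.1 s) :=
        hp.continuous_cdf.sub (hq.continuous_cdf.comp (by fun_prop :
          Continuous (fun z : T × ℝ => ((z.1, a) : T × ℝ))))
      have h0 : (∫ s in Iic y0, p t0 s) - ∫ s in Iic a, q t0 s < 0 := by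
        rw [← hN]
        exact sub_neg.mpr (hq.strictMono_cdf t0 ha)
      filter_upwards [hc.continuousAt.eventually (gt_mem_nhds h0)] with z hz
      rw [← hN, sub_neg] at hz
      exact (hq.strictMono_cdf z.1).lt_iff_lt.mp hz
  refine ⟨N, hcont, fun t y => ?_⟩
  exact hasDerivAt_of_comp (hp.hasDerivAt_cdf t y) (hq.hasDerivAt_cdf t (N t y))
    (hq.pos _ _).ne' (hcont.comp (by fun_prop : Continuous (fun y : ℝ => ((t, y) : T × ℝ)))).continuousAt
    (fun z => hN t z)

end Pool.Agent.Lib.MP_2d002d_gt.H74
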