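import Pool.Agent.Lib.MP_2d002d_gt.H74.Basic

/-!
# MP_2d002d_gt, module M6a (helper74): the slice inequality
-/

set_option autoImplicit false

open MeasureTheory Set Filter Topology
open scoped ContDiff

namespace Pool.Agent.Lib.MP_2d002d_gt.H74

/-- A vector of `Fin m → ℝ` in terms of the unit vectors, under a linear map. -/
theorem clm_pi {m : ℕ} (L : (Fin m → ℝ) →L[ℝ] ℝ) (w : Fin m → ℝ) :
    L w = ∑ l, w l * L (Pi.single l 1) := by
  conv_lhs => rw [show w = ∑ l, w l • (Pi.single l (1 : ℝ) : Fin m → ℝ) by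
    funext k
    rw [Finset.sum_apply, Finset.sum_eq_single k]
    · simp
    · intro l _ hl
      rw [Pi.smul_apply, Pi.single_eq_of_ne hl.symm, smul_zero]
    · intro h
      exact absurd (Finset.mem_univ k) h]
  rw [map_sum]
  simp only [map_smul, smul_eq_mul]

theorem continuous_pd {m : ℕ} {f : (Fin m → ℝ) → ℝ} (hf : ContDiff ℝ 1 f) (l : Fin m) :
    Continuous (pd l f) := by
  unfold pd
  exact (hf.continuous_fderiv (by simp)).clm_apply continuous_const

theorem slice (hK : Knothe) : Slice := by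
  intro m A σ ψ t v hA hσ hψ hev hconv hv hvc
  have hemb : ContDiff ℝ ∞ (fun y : Fin m → ℝ => ((t, y) : ℝ × (Fin m → ℝ))) :=
    contDiff_const.prodMk contDiff_id
  have hψt : ContDiff ℝ ∞ (fun y : Fin m → ℝ => ψ (t, y)) := hψ.comp hemb
  set P : (Fin m → ℝ) → ℝ := Psi A σ (fun y => ψ (t, y)) with hP
  have hPs : ContDiff ℝ ∞ P := contDiff_Psi hA le_rfl hψt
  have hPc : Continuous P := hPs.continuous
  obtain ⟨c, hc, C, hlow⟩ := Psi_lower (σ := σ) hA hσ (ψ := fun y => ψ (t, y)) (c0 := ψ 0)
    (fun y => even_convex_ge hconv hev (t, y))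
  obtain ⟨N, hNc, hN⟩ := hK m P (fun y => P (-y)) hPc (hPc.comp continuous_neg) ⟨c, hc, C, hlow⟩
    ⟨c, hc, C, fun x => by
      have h := hlow (-x)
      simpa using h⟩
    (integral_neg_eq_self (fun x => Real.exp (-P x)) volume).symm
  -- the partial derivatives of the slice of `ψ`
  have hpdψ : ∀ (l : Fin m) (y : Fin m → ℝ), pd l (fun y => ψ (t, y)) y =
      fderiv ℝ ψ (t, y) (0, Pi.single l 1) := by
    intro l y
    have h1 : HasFDerivAt (fun y : Fin m → ℝ => ((t, y) : ℝ × (Fin m → ℝ)))
        (ContinuousLinearMap.inr ℝ ℝ (Fin m → ℝ)) y := hasFDerivAt_prodMk_right t y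
    have h2 : HasFDerivAt ψ (fderiv ℝ ψ (t, y)) (t, y) :=
      (hψ.differentiable (by simp) _).hasFDerivAt
    have h3 : HasFDerivAt (fun y : Fin m → ℝ => ψ (t, y)) ((fderiv ℝ ψ (t, y)).comp
        (ContinuousLinearMap.inr ℝ ℝ (Fin m → ℝ))) y := h2.comp y h1
    unfold pd
    rw [h3.fderiv]
    simp
  -- the convexity inequality
  have key : ∀ y : Fin m → ℝ, -2 * (t * fderiv ℝ ψ (t, y) (1, 0)) +
      (∑ l, (N y l - y l) * pd l P y) + (∑ l, bf A σ l (y l) * (N y l - y l) ^ 2 / 2) ≤
      P (-(N y)) - P y := by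
    intro y
    have h1 := tangent_plane hconv (hψ.differentiable (by simp) (t, y)) (-t, N y)
    have h2 : fderiv ℝ ψ (t, y) ((-t, N y) - (t, y)) =
        -2 * (t * fderiv ℝ ψ (t, y) (1, 0)) + ∑ l, (N y l - y l) * pd l (fun y => ψ (t, y)) y := by
      have e : ((-t, N y) - (t, y) : ℝ × (Fin m → ℝ)) = (-2 * t) • ((1, 0) : ℝ × (Fin m → ℝ)) +
          (0, N y - y) := by
        ext
        · simp
          ring
        · simp
      rw [e, map_add, map_smul]
      have h3 := clm_pi ((fderiv ℝ ψ (t, y)).comp (ContinuousLinearMap.inr ℝ ℝ (Fin m → ℝ)))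
        (N y - y)
      simp only [ContinuousLinearMap.comp_apply, ContinuousLinearMap.inr_apply, Pi.sub_apply] at h3
      rw [h3]
      simp only [hpdψ, smul_eq_mul]
      ring
    have h4 : ∀ l, Uf A σ l (y l) + bf A σ l (y l) * ((N y l) ^ 2 - (y l) ^ 2) / 2 ≤
        Uf A σ l (N y l) := fun l => Uf_tangent hA l _ _
    have h5 := Finset.sum_le_sum (s := Finset.univ) (fun l _ => h4 l)
    have h6 : P (-(N y)) = (∑ l, Uf A σ l (N y l)) + ψ (-t, N y) := by
      rw [hP]
      unfold Psi
      have e1 : ψ (t, -(N y)) = ψ (-t, N y) := by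
        rw [← hev (t, -(N y))]
        simp
      have e2 : ∀ l, Uf A σ l ((-(N y)) l) = Uf A σ l (N y l) := by
        intro l
        unfold Uf
        simp
      simp only [e2]
      rw [e1]
    have h7 : P y = (∑ l, Uf A σ l (y l)) + ψ (t, y) := rfl
    have h8 : (∑ l, (N y l - y l) * pd l P y) = (∑ l, (N y l - y l) * (y l * bf A σ l (y l))) +
        ∑ l, (N y l - y l) * pd l (fun y => ψ (t, y)) y := by
      rw [← Finset.sum_add_distrib]
      refine Finset.sum_congr rfl fun l _ => ?_
      rw [hP, pd_Psi hA (hψt.differentiable (by simp))]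
      ring
    have h9 : (∑ l, (Uf A σ l (y l) + bf A σ l (y l) * ((N y l) ^ 2 - (y l) ^ 2) / 2)) =
        (∑ l, Uf A σ l (y l)) + (∑ l, (N y l - y l) * (y l * bf A σ l (y l))) +
        ∑ l, bf A σ l (y l) * (N y l - y l) ^ 2 / 2 := by
      rw [← Finset.sum_add_distrib, ← Finset.sum_add_distrib]
      refine Finset.sum_congr rfl fun l _ => ?_
      ring
    rw [h9] at h5
    rw [h2] at h1
    rw [h6, h7, h8]
    linarith
  -- the weight
  set w : (Fin m → ℝ) → ℝ := fun y => v y ^ 2 * Real.exp (-P y) with hw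
  have hws : ContDiff ℝ 1 w := (hv.pow 2).mul ((hPs.of_le (by simp)).neg.exp)
  have hwc : HasCompactSupport w :=
    HasCompactSupport.intro hvc (fun y hy => by
      rw [hw]
      simp only
      rw [image_eq_zero_of_notMem_tsupport hy]
      simp)
  have hKw := hN w hws hwc (fun y => mul_nonneg (sq_nonneg _) (Real.exp_pos _).le)
  have hpdw : ∀ (l : Fin m) (y : Fin m → ℝ), pd l w y =
      (2 * v y * pd l v y - v y ^ 2 * pd l P y) * Real.exp (-P y) := by
    intro l y
    have h1 : HasFDerivAt v (fderiv ℝ v y) y := (hv.differentiable (by simp) y).hasFDerivAt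
    have h2 : HasFDerivAt P (fderiv ℝ P y) y := (hPs.differentiable (by simp) y).hasFDerivAt
    have h3 : HasFDerivAt w _ y := (h1.pow 2).mul (h2.neg.exp)
    unfold pd
    rw [h3.fderiv]
    simp only [add_apply, smul_apply, neg_apply, smul_eq_mul, Nat.add_one_sub_one, pow_one,
      Nat.cast_ofNat, nsmul_eq_mul, Pi.neg_apply]
    ring
  have hvd : Continuous v := hv.continuous
  have hz : ∀ y, y ∉ tsupport v → v y = 0 ∧ ∀ l, pd l v y = 0 := by
    intro y hy
    refine ⟨image_eq_zero_of_notMem_tsupport hy, fun l => ?_⟩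
    unfold pd
    rw [fderiv_of_notMem_tsupport (𝕜 := ℝ) hy]
    rfl
  have hcpd : ∀ l, Continuous (pd l v) := fun l => continuous_pd hv l
  have hcP : ∀ l, Continuous (pd l P) := fun l => continuous_pd (hPs.of_le (by simp)) l
  have hcb : ∀ l, Continuous (fun y : Fin m → ℝ => bf A σ l (y l)) := fun l =>
    (contDiff_bf (σ := σ) hA l).continuous.comp (continuous_apply l)
  have hcψ : Continuous (fun y : Fin m → ℝ => fderiv ℝ ψ (t, y) (1, 0)) :=
    ((hψ.continuous_fderiv (by simp)).comp (by fun_prop)).clm_apply continuous_const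
  have hcN : ∀ l, Continuous (fun y => N y l) := fun l => (continuous_apply l).comp hNc
  have hint : ∀ f : (Fin m → ℝ) → ℝ, Continuous f → (∀ y, v y = 0 → (∀ l, pd l v y = 0) →
      f y = 0) → Integrable f := by
    intro f hf h0
    exact hf.integrable_of_hasCompactSupport (HasCompactSupport.intro hvc (fun y hy =>
      h0 y (hz y hy).1 (hz y hy).2))
  -- the right side of the Knothe inequality
  have hR : - ∑ j, ∫ x, (N x j - x j) * pd j w x = ∫ y, (∑ l, -((N y l - y l) *
      (2 * v y * pd l v y - v y ^ 2 * pd l P y))) * Real.exp (-P y) := by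
    rw [← integral_finset_sum, ← integral_neg]
    · refine integral_congr_ae (Eventually.of_forall fun y => ?_)
      simp only [hpdw]
      rw [Finset.sum_mul, ← Finset.sum_neg_distrib]
      refine Finset.sum_congr rfl fun l _ => ?_
      ring
    · intro l _
      refine hint _ ?_ ?_
      · exact (((hcN l).sub (continuous_apply l)).mul (continuous_pd hws l))
      · intro y h1 h2
        rw [hpdw, h1, h2]
        simp
  rw [hR] at hKw
  have hmain : 0 ≤ ∫ y, ((∑ l, -((N y l - y l) *
      (2 * v y * pd l v y - v y ^ 2 * pd l P y))) * Real.exp (-P y) - w y * (P (-(N y)) - P y)) := by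
    rw [integral_sub]
    · linarith
    · refine hint _ ?_ ?_
      · exact (continuous_finsetSum _ fun l _ => (((hcN l).sub (continuous_apply l)).mul
          (((continuous_const.mul hvd).mul (hcpd l)).sub ((hvd.pow 2).mul (hcP l)))).neg).mul
          hPc.neg.rexp
      · intro y h1 h2
        simp [h1, h2]
    · refine hint _ ?_ ?_
      · exact hws.continuous.mul ((hPc.comp hNc.neg).sub hPc)
      · intro y h1 h2
        simp [hw, h1]
  have hle : ∫ y, ((∑ l, -((N y l - y l) *
      (2 * v y * pd l v y - v y ^ 2 * pd l P y))) * Real.exp (-P y) - w y * (P (-(N y)) - P y)) ≤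
      ∫ y, 2 * ((t * fderiv ℝ ψ (t, y) (1, 0) * v y ^ 2 + ∑ l, pd l v y ^ 2 / bf A σ l (y l)) *
        Real.exp (-P y)) := by
    refine integral_mono ?_ ?_ ?_
    · refine hint _ ?_ ?_
      · exact ((continuous_finsetSum _ fun l _ => (((hcN l).sub (continuous_apply l)).mul
          (((continuous_const.mul hvd).mul (hcpd l)).sub ((hvd.pow 2).mul (hcP l)))).neg).mul
          hPc.neg.rexp).sub (hws.continuous.mul ((hPc.comp hNc.neg).sub hPc))
      · intro y h1 h2
        simp [hw, h1, h2]
    · refine hint _ ?_ ?_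
      · exact continuous_const.mul ((((continuous_const.mul hcψ).mul (hvd.pow 2)).add
          (continuous_finsetSum _ fun l _ => ((hcpd l).pow 2).div₀ (hcb l)
            (fun y => (bf_pos hA hσ l (y l)).ne'))).mul hPc.neg.rexp)
      · intro y h1 h2
        simp [h1, h2]
    · intro y
      have h1 := key y
      have hE := Real.exp_pos (-P y)
      have h2 : w y * (-2 * (t * fderiv ℝ ψ (t, y) (1, 0)) +
          (∑ l, (N y l - y l) * pd l P y) + (∑ l, bf A σ l (y l) * (N y l - y l) ^ 2 / 2)) ≤
          w y * (P (-(N y)) - P y) :=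
        mul_le_mul_of_nonneg_left h1 (mul_nonneg (sq_nonneg _) hE.le)
      have h3 : ∀ l, -((N y l - y l) * (2 * v y * pd l v y)) -
          v y ^ 2 * (bf A σ l (y l) * (N y l - y l) ^ 2 / 2) ≤ 2 * (pd l v y ^ 2 / bf A σ l (y l)) := by
        intro l
        have hb := bf_pos (σ := σ) hA hσ l (y l)
        set β := bf A σ l (y l)
        have h4 : 0 ≤ (β * v y * (N y l - y l) / 2 + pd l v y) ^ 2 / β := by positivity
        have h5 : (β * v y * (N y l - y l) / 2 + pd l v y) ^ 2 / β =
            β * v y ^ 2 * (N y l - y l) ^ 2 / 4 + v y * (N y l - y l) * pd l v y +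
              pd l v y ^ 2 / β := by
          field_simp
          ring
        rw [h5] at h4
        nlinarith
      have h6 := Finset.sum_le_sum (s := Finset.univ) (fun l _ => h3 l)
      rw [Finset.sum_sub_distrib, ← Finset.mul_sum, ← Finset.mul_sum] at h6
      have h7 : (∑ l, -((N y l - y l) * (2 * v y * pd l v y - v y ^ 2 * pd l P y))) =
          (∑ l, -((N y l - y l) * (2 * v y * pd l v y))) +
            v y ^ 2 * ∑ l, (N y l - y l) * pd l P y := by
        rw [Finset.mul_sum, ← Finset.sum_add_distrib]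
        refine Finset.sum_congr rfl fun l _ => ?_
        ring
      change (∑ l, -((N y l - y l) *
        (2 * v y * pd l v y - v y ^ 2 * pd l P y))) * Real.exp (-P y) - w y * (P (-(N y)) - P y) ≤
        2 * ((t * fderiv ℝ ψ (t, y) (1, 0) * v y ^ 2 + ∑ l, pd l v y ^ 2 / bf A σ l (y l)) *
        Real.exp (-P y))
      have h8 : w y = v y ^ 2 * Real.exp (-P y) := rfl
      rw [h7]
      rw [h8] at h2 ⊢
      have h9 := mul_le_mul_of_nonneg_right h6 hE.le
      nlinarith
  rw [integral_const_mul] at hle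
  have hfin := hmain.trans hle
  linarith

end Pool.Agent.Lib.MP_2d002d_gt.H74
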